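import Pool.Agent.Helper9_BS.Loop

/-! # BS squad, module FCROSS -/

set_option autoImplicit false

namespace Pool.Agent.BS.H9

open Function Pool.Agent.BS

variable {D V : Type} {T : TMap D V} {c : V → Bool} {s : D} {ℓ : ℕ} {H : Finset V}

namespace IsLoop

variable (h : T.IsLoop c s ℓ H)

include h

/-- a function constant along the edges outside `H` is constant on the right vertices of the loop -/
theorem const_rt {α : Type} (χ : V → α)
    (hχ : ∀ d, T.lf d ∉ H → T.rt d ∉ H → χ (T.lf d) = χ (T.rt d)) (j : ℕ) :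
    χ (T.rt ((T.nx c)^[j] s)) = χ (T.rt s) := by
  induction j with
  | zero => rfl
  | succ j ih =>
    have h1 := (st h).lf_succ (j : ℤ)
    have e1 : T.st c s ((j : ℤ) + 1) = (T.nx c)^[j + 1] s := by
      have : ((j : ℤ) + 1) = ((j + 1 : ℕ) : ℤ) := by push_cast; ring
      rw [this, TMap.st_natCast]
    rw [e1, TMap.st_natCast] at h1
    rcases h1 with ⟨_, h1, _⟩ | ⟨h1, _⟩
    · have h2 := hχ (T.rho ((T.nx c)^[j] s)) (by
        rw [T.lf_rho, ← h1]; exact (mem h (j + 1)).2) (by rw [T.rt_rho]; exact (mem h j).2)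
      rw [h1, ← ih, ← T.lf_rho, h2, T.rt_rho]
    · rw [h1]; exact ih

/-- a function constant along the edges inside `H` is constant on the left vertices of the loop -/
theorem const_lf {α : Type} (χ : V → α)
    (hχ : ∀ d, T.lf d ∈ H → T.rt d ∈ H → χ (T.lf d) = χ (T.rt d)) (j : ℕ) :
    χ (T.lf ((T.nx c)^[j] s)) = χ (T.lf s) := by
  induction j with
  | zero => rfl
  | succ j ih =>
    have h1 := (st h).lf_succ (j : ℤ)
    have e1 : T.st c s ((j : ℤ) + 1) = (T.nx c)^[j + 1] s := by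
      have : ((j : ℤ) + 1) = ((j + 1 : ℕ) : ℤ) := by push_cast; ring
      rw [this, TMap.st_natCast]
    rw [e1, TMap.st_natCast] at h1
    rcases h1 with ⟨h1, _⟩ | ⟨_, h1, _⟩
    · rw [h1]; exact ih
    · have h2 := hχ (T.lam ((T.nx c)^[j] s)) (by
        rw [T.lf_lam]; exact (mem h j).1) (by rw [T.rt_lam, ← h1]; exact (mem h (j + 1)).1)
      rw [T.lf_lam, T.rt_lam] at h2
      rw [h1, ← h2]
      exact ih

/-- the potential of the closed path 'arc `i..x` of the loop, then rotation around the common left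
vertex' -/
theorem arc_lam (hT : T.Planar) {i x : ℕ} (hix : i < x) (hx : x < i + ℓ)
    (he : T.lf ((T.nx c)^[i] s) = T.lf ((T.nx c)^[x] s)) :
    ∃ (χ : V → ℤ) (κ : ℤ), (support χ).Finite ∧
      (∀ j, χ (T.rt ((T.nx c)^[j] s)) = κ) ∧
      (∀ j, i ≤ j → j ≤ x → χ (T.lf ((T.nx c)^[j] s)) = κ + 1) ∧
      (∀ j, x < j → j < i + ℓ → T.lf ((T.nx c)^[j] s) ≠ T.lf ((T.nx c)^[i] s) →
        χ (T.lf ((T.nx c)^[j] s)) = κ) ∧
      (∀ d, ¬ (T.lf d ∈ H ∧ T.rt d ∉ H) → ¬ (T.rt d ∈ H ∧ T.lf d ∉ H) →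
        T.lf d ≠ T.lf ((T.nx c)^[i] s) → T.rt d ≠ T.lf ((T.nx c)^[i] s) →
        χ (T.lf d) = χ (T.rt d)) := by
  obtain ⟨χ, hfin, h1, h2, _⟩ := strand_lam hT (fun t => (T.nx c)^[i + t] s) (x - i)
    (T.lf ((T.nx c)^[i] s)) (by omega)
    (by
      intro k _
      simp only
      rw [← Nat.add_assoc, Function.iterate_succ_apply']
      exact nx_turn c _)
    (by
      intro a b ha hb hab
      rcases lt_trichotomy a b with hlt | hlt | hlt
      · exact absurd hab (ne h (i := i + a) (j := i + b) (by omega) (by omega))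
      · exact hlt
      · exact absurd hab.symm (ne h (i := i + b) (j := i + a) (by omega) (by omega)))
    (by
      intro a b _ _
      exact ne_al h _ _)
    (by simp)
    (by
      rw [Nat.add_sub_cancel' hix.le]
      exact he.symm)
    (by
      intro a _ hcon
      exact (mem h (i + a)).2 (by rw [hcon]; exact (mem h i).1))
  -- general edge property
  have hgen : ∀ d, ¬ (T.lf d ∈ H ∧ T.rt d ∉ H) → ¬ (T.rt d ∈ H ∧ T.lf d ∉ H) →
        T.lf d ≠ T.lf ((T.nx c)^[i] s) → T.rt d ≠ T.lf ((T.nx c)^[i] s) →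
        χ (T.lf d) = χ (T.rt d) := by
    intro d hd1 hd2 hd3 hd4
    refine h1 d ?_ hd4 hd3
    intro t _
    constructor
    · intro e
      exact hd1 (by rw [← e]; exact mem h _)
    · intro e
      apply hd2
      have := mem h (i + t)
      rw [e, TMap.lf_al, TMap.rt_al] at this
      exact this
  have hb : T.lf ((T.nx c)^[i] s) ∈ H := (mem h i).1
  have hκ : ∀ j, χ (T.rt ((T.nx c)^[j] s)) = χ (T.rt s) := by
    apply const_rt h
    intro d h3 h4
    refine hgen d (fun h => h3 h.1) (fun h => h4 h.1) ?_ ?_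
    · intro e; exact h3 (by rw [e]; exact hb)
    · intro e; exact h4 (by rw [e]; exact hb)
  refine ⟨χ, χ (T.rt s), hfin, hκ, ?_, ?_, hgen⟩
  · have h0 : χ (T.lf ((T.nx c)^[i] s)) = χ (T.rt s) + 1 := by
      have := h2 0 (Nat.zero_le _) (Or.inr rfl)
      simp only [Nat.add_zero] at this
      rw [hκ] at this
      linarith
    intro j hj1 hj2
    by_cases hja : T.lf ((T.nx c)^[j] s) = T.lf ((T.nx c)^[i] s)
    · rw [hja]; exact h0
    · have := h2 (j - i) (by omega) (Or.inl (by
        rw [Nat.add_sub_cancel' hj1]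
        exact hja))
      rw [Nat.add_sub_cancel' hj1, hκ] at this
      linarith
  · intro j hj1 hj2 hj3
    rw [← hκ j]
    refine h1 _ ?_ ?_ hj3
    · intro t ht
      constructor
      · exact ne h (i := i + t) (j := j) (by omega) (by omega)
      · exact (ne_al h j (i + t)).symm
    · intro e
      exact (mem h j).2 (by rw [e]; exact hb)

/-- the same with the rotation around the common right vertex -/
theorem arc_rho (hT : T.Planar) {i x : ℕ} (hix : i < x) (hx : x < i + ℓ)
    (he : T.rt ((T.nx c)^[i] s) = T.rt ((T.nx c)^[x] s)) :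
    ∃ (χ : V → ℤ) (κ : ℤ), (support χ).Finite ∧
      (∀ j, χ (T.lf ((T.nx c)^[j] s)) = κ) ∧
      (∀ j, i ≤ j → j ≤ x → χ (T.rt ((T.nx c)^[j] s)) = κ - 1) ∧
      (∀ j, x < j → j < i + ℓ → T.rt ((T.nx c)^[j] s) ≠ T.rt ((T.nx c)^[i] s) →
        χ (T.rt ((T.nx c)^[j] s)) = κ) ∧
      (∀ d, ¬ (T.lf d ∈ H ∧ T.rt d ∉ H) → ¬ (T.rt d ∈ H ∧ T.lf d ∉ H) →
        T.lf d ≠ T.rt ((T.nx c)^[i] s) → T.rt d ≠ T.rt ((T.nx c)^[i] s) →
        χ (T.lf d) = χ (T.rt d)) := by
  obtain ⟨χ, hfin, h1, h2, _⟩ := strand_rho hT (fun t => (T.nx c)^[i + t] s) (x - i)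
    (T.rt ((T.nx c)^[i] s)) (by omega)
    (by
      intro k _
      simp only
      rw [← Nat.add_assoc, Function.iterate_succ_apply']
      exact nx_turn c _)
    (by
      intro a b ha hb hab
      rcases lt_trichotomy a b with hlt | hlt | hlt
      · exact absurd hab (ne h (i := i + a) (j := i + b) (by omega) (by omega))
      · exact hlt
      · exact absurd hab.symm (ne h (i := i + b) (j := i + a) (by omega) (by omega)))
    (by
      intro a b _ _
      exact ne_al h _ _)
    (by simp)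
    (by
      rw [Nat.add_sub_cancel' hix.le]
      exact he.symm)
    (by
      intro a _ hcon
      exact (mem h i).2 (by rw [← hcon]; exact (mem h (i + a)).1))
  have hgen : ∀ d, ¬ (T.lf d ∈ H ∧ T.rt d ∉ H) → ¬ (T.rt d ∈ H ∧ T.lf d ∉ H) →
        T.lf d ≠ T.rt ((T.nx c)^[i] s) → T.rt d ≠ T.rt ((T.nx c)^[i] s) →
        χ (T.lf d) = χ (T.rt d) := by
    intro d hd1 hd2 hd3 hd4
    refine h1 d ?_ hd4 hd3
    intro t _
    constructor
    · intro e
      exact hd1 (by rw [← e]; exact mem h _)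
    · intro e
      apply hd2
      have := mem h (i + t)
      rw [e, TMap.lf_al, TMap.rt_al] at this
      exact this
  have hb : T.rt ((T.nx c)^[i] s) ∉ H := (mem h i).2
  have hκ : ∀ j, χ (T.lf ((T.nx c)^[j] s)) = χ (T.lf s) := by
    apply const_lf h
    intro d h3 h4
    refine hgen d (fun h => h.2 h4) (fun h => h.2 h3) ?_ ?_
    · intro e; exact hb (by rw [← e]; exact h3)
    · intro e; exact hb (by rw [← e]; exact h4)
  refine ⟨χ, χ (T.lf s), hfin, hκ, ?_, ?_, hgen⟩
  · have h0 : χ (T.rt ((T.nx c)^[i] s)) = χ (T.lf s) - 1 := by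
      have := h2 0 (Nat.zero_le _) (Or.inr rfl)
      simp only [Nat.add_zero] at this
      rw [hκ] at this
      linarith
    intro j hj1 hj2
    by_cases hja : T.rt ((T.nx c)^[j] s) = T.rt ((T.nx c)^[i] s)
    · rw [hja]; exact h0
    · have := h2 (j - i) (by omega) (Or.inl (by
        rw [Nat.add_sub_cancel' hj1]
        exact hja))
      rw [Nat.add_sub_cancel' hj1, hκ] at this
      linarith
  · intro j hj1 hj2 hj3
    have := h1 ((T.nx c)^[j] s) ?_ hj3 ?_
    · rw [← this, hκ]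
    · intro t ht
      constructor
      · exact ne h (i := i + t) (j := j) (by omega) (by omega)
      · exact (ne_al h j (i + t)).symm
    · intro e
      exact hb (by rw [← e]; exact (mem h j).1)

end IsLoop

theorem fcross : FinCrossStmt := by
  intro D V T Δ K θ c s ℓ H y i i' x hT _ _ h hyi hii' hi'x hxy he1 he2
  obtain ⟨χ, κ, _, _, h2, h3, _⟩ := IsLoop.arc_lam h hT (i := i) (x := x) (by omega) (by omega) he2
  by_contra hne
  have e1 := h2 i' hii'.le hi'x.le
  have e2 := h3 (y + ℓ) hxy (by omega) (by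
    rw [IsLoop.per_add h, he1]
    exact fun e => hne e.symm)
  rw [IsLoop.per_add h, he1] at e2
  omega

end Pool.Agent.BS.H9
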