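import Pool.Agent.Helper9_BS.Bay

/-! # BS squad, modules DRIFT (FinDriftStmt, FinChangeStmt) and FOLD (FinOldStmt) -/

set_option autoImplicit false

namespace Pool.Agent.BS.H9

open Function Pool.Agent.BS

variable {D V : Type} {T : TMap D V} {c : V → Bool} {s : D} {ℓ : ℕ} {H : Finset V}

theorem bayCtx (hoe : OEStmt) (hinf : InfStmt) (hT : T.Planar) {K : ℕ} {θ : D → ℤ}
    (hθ : T.IsFlow K θ) (h : T.IsLoop c s ℓ H) : BayCtx T H :=
  ⟨hoe, hT, hinf D V T K θ hθ ⟨T.lf s⟩, IsLoop.conn_out h⟩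

theorem KΔ_pos {Δ K : ℕ} {θ : D → ℤ} (hΔ : T.Deg Δ) (hθ : T.IsFlow K θ) (v : V) : 1 ≤ K * Δ := by
  have h1 := hθ.div v
  have h2 : ∑ d ∈ T.star v, θ d ≤ ∑ d ∈ T.star v, (K : ℤ) :=
    Finset.sum_le_sum (fun d _ => (le_abs_self _).trans (hθ.bdd d))
  rw [Finset.sum_const, nsmul_eq_mul] at h2
  have h3 : (((T.star v).card : ℕ) : ℤ) * K ≤ Δ * K :=
    mul_le_mul_of_nonneg_right (by exact_mod_cast hΔ v) (by positivity)
  have h4 : (1 : ℤ) ≤ ((K * Δ : ℕ) : ℤ) := by push_cast; nlinarith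
  exact_mod_cast h4

/-- counting: at most `Δ` loop darts have a given right vertex -/
theorem count_rt {Δ : ℕ} (hΔ : T.Deg Δ) (J : Finset ℕ) (f : ℕ → D) (W : Finset V)
    (hinj : ∀ i ∈ J, ∀ j ∈ J, f i = f j → i = j) (hW : ∀ j ∈ J, T.rt (f j) ∈ W) :
    J.card ≤ Δ * W.card := by
  classical
  have h1 : J.card ≤ (W.biUnion T.star).card := by
    apply Finset.card_le_card_of_injOn (fun j => T.al (f j))
    · intro j hj
      simp only [Finset.coe_biUnion, Set.mem_iUnion, Finset.mem_coe, T.mem_star]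
      exact ⟨T.rt (f j), hW j hj, rfl⟩
    · intro i hi j hj hij
      exact hinj i hi j hj (T.al.injective hij)
  refine h1.trans (Finset.card_biUnion_le.trans ?_)
  refine (Finset.sum_le_sum (fun v _ => hΔ v)).trans ?_
  simp [Nat.mul_comm]

/-- **FOLD** -/
theorem fold (hoe : OEStmt) (hinf : InfStmt) : FinOldStmt := by
  classical
  intro D V T Δ K θ c s ℓ H m i k hT hΔ hθ h hik h1 h2
  have hc := bayCtx hoe hinf hT hθ h
  have hV : Infinite V := hc.inf
  have hΔpos : 0 < Δ := by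
    have h3 := hΔ (T.lf s)
    have h4 := (T.star_ne (T.lf s)).card_pos
    omega
  have hΔm : 1 ≤ Δ * (m + 1) := Nat.mul_pos hΔpos (Nat.succ_pos m)
  obtain ⟨χ, κ, hfin, ha, hb1, hb2, hgen⟩ := IsLoop.arc_rho h hT (i := i) (x := k) (by omega)
    (by omega) hik
  set b := T.rt ((T.nx c)^[i] s) with hb
  have hbH : b ∉ H := (IsLoop.mem h i).2
  -- `χ` vanishes on the infinite component
  have hbig : ∀ u ∈ big T (insert b (H : Set V)), χ u = 0 := by
    obtain ⟨z, hz1, hz2⟩ : ∃ z ∈ big T (insert b (H : Set V)), χ z = 0 := by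
      by_contra hno
      push Not at hno
      have h3 : (big T (insert b (H : Set V))).Finite := hfin.subset (fun z hz => hno z hz)
      have h4 := big_cofinite hoe hT (BayCtx.finZ (H := H) b)
      have := h3.union h4
      rw [Set.union_compl_self] at this
      exact Set.infinite_univ this
    intro u hu
    have hr := big_conn hoe hT (BayCtx.finZ (H := H) b) hz1 hu
    have : u ∈ {w | χ w = 0 ∧ w ∉ insert b (H : Set V)} := by
      refine Reach.into hr ⟨hz2, hz1.1⟩ ?_
      rintro u v ⟨hu1, hu2⟩ hv ⟨d, rfl, rfl⟩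
      refine ⟨?_, hv⟩
      have hu3 := BayCtx.notMem_Z.1 hu2
      have hv3 := BayCtx.notMem_Z.1 hv
      rw [← hgen d (fun h => hu3.2 h.1) (fun h => hv3.2 h.1) hu3.1 hv3.1]
      exact hu1
    exact this.1
  have hbay : ∀ j, χ (T.rt ((T.nx c)^[j] s)) ≠ 0 → T.rt ((T.nx c)^[j] s) ≠ b →
      T.rt ((T.nx c)^[j] s) ∈ T.bay (H : Set V) b := by
    intro j hj hjb
    rcases BayCtx.bay_or_big (T := T) (IsLoop.mem h j).2 hjb with h3 | h3
    · exact h3
    · exact absurd (hbig _ h3) hj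
  have hbfin := BayCtx.bay_finite hc b
  -- the arc
  obtain ⟨j0, hj0⟩ : ∃ j0, ∀ j ∈ Finset.Ico j0 (j0 + Δ * (m + 1)),
      i ≤ j ∧ j < i + ℓ ∧ (T.rt ((T.nx c)^[j] s) = b ∨
        T.rt ((T.nx c)^[j] s) ∈ T.bay (H : Set V) b) := by
    by_cases hκ : κ = 0
    · refine ⟨i, fun j hj => ?_⟩
      rw [Finset.mem_Ico] at hj
      refine ⟨by omega, by omega, ?_⟩
      by_cases hjb : T.rt ((T.nx c)^[j] s) = b
      · exact Or.inl hjb
      · right
        apply hbay j _ hjb
        rw [hb1 j (by omega) (by omega), hκ]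
        norm_num
    · refine ⟨k, fun j hj => ?_⟩
      rw [Finset.mem_Ico] at hj
      refine ⟨by omega, by omega, ?_⟩
      by_cases hjb : T.rt ((T.nx c)^[j] s) = b
      · exact Or.inl hjb
      · right
        apply hbay j _ hjb
        have hjk : k < j := by
          rcases Nat.lt_or_ge k j with h3 | h3
          · exact h3
          · exfalso
            have : j = k := by omega
            rw [this, ← hik] at hjb
            exact hjb rfl
        rw [hb2 j hjk (by omega) hjb]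
        exact hκ
  have hcard := count_rt hΔ (Finset.Ico j0 (j0 + Δ * (m + 1))) (fun j => (T.nx c)^[j] s)
    (insert b hbfin.toFinset) (by
      intro a ha b hb hab
      have ha' := hj0 a ha
      have hb' := hj0 b hb
      rcases lt_trichotomy a b with hlt | hlt | hlt
      · exact absurd hab (IsLoop.ne h hlt (by omega))
      · exact hlt
      · exact absurd hab.symm (IsLoop.ne h hlt (by omega)))
    (by
      intro j hj
      rw [Finset.mem_insert, Set.Finite.mem_toFinset]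
      exact (hj0 j hj).2.2)
  rw [Nat.card_Ico, Nat.add_sub_cancel_left, Finset.card_insert_of_notMem (by
    rw [Set.Finite.mem_toFinset]
    exact fun h => h.2.1 rfl)] at hcard
  have hm : m ≤ (T.bay (H : Set V) b).ncard := by
    rw [Set.ncard_eq_toFinset_card _ hbfin]
    have := Nat.le_of_mul_le_mul_left hcard hΔpos
    omega
  right
  exact ⟨b, hbH, hm, Or.inl hik.symm⟩

/-! ### the hull -/

/-- boundary darts of a set of vertices: membership -/
theorem mem_bd (S : Finset V) (d : D) : d ∈ T.bd S ↔ T.lf d ∈ S ∧ T.rt d ∉ S := by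
  classical
  simp only [TMap.bd, Finset.mem_filter, Finset.mem_biUnion, T.mem_star]
  constructor
  · rintro ⟨⟨v, hv, rfl⟩, h2⟩
    exact ⟨hv, h2⟩
  · rintro ⟨h1, h2⟩
    exact ⟨⟨_, h1, rfl⟩, h2⟩

/-- a bound on the size of bays -/
theorem bay_card_le (hfl : FluxSetStmt) (hc : BayCtx T H) {Δ K : ℕ} {θ : D → ℤ} (hΔ : T.Deg Δ)
    (hθ : T.IsFlow K θ) (h : T.IsLoop c s ℓ H) (y : V) :
    (T.bay (H : Set V) y).ncard ≤ K * (ℓ + Δ) := by
  classical
  have hfin := BayCtx.bay_finite hc y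
  rw [Set.ncard_eq_toFinset_card _ hfin]
  refine (flux_le hfl hθ hfin.toFinset).trans (Nat.mul_le_mul_left K ?_)
  have hsub : T.bd hfin.toFinset ⊆ (T.bd H ∪ T.star y).image T.al := by
    intro d hd
    rw [mem_bd, Set.Finite.mem_toFinset, Set.Finite.mem_toFinset] at hd
    rw [Finset.mem_image]
    refine ⟨T.al d, ?_, T.al_al d⟩
    rw [Finset.mem_union, mem_bd, T.mem_star, TMap.lf_al, TMap.rt_al]
    by_cases hH : T.rt d ∈ H
    · exact Or.inl ⟨hH, hd.1.1⟩
    · right
      by_contra hy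
      exact hd.2 (BayCtx.bay_closed hd.1 hH hy (T.adj_lf_rt d))
  refine (Finset.card_le_card hsub).trans (Finset.card_image_le.trans ?_)
  refine (Finset.card_union_le _ _).trans ?_
  rw [IsLoop.card_bd h]
  have := hΔ y
  omega

/-- The hull as a finite set: its properties. -/
theorem hull_props (hfl : FluxSetStmt) (hc : BayCtx T H) {Δ K : ℕ} {θ : D → ℤ} (hΔ : T.Deg Δ)
    (hθ : T.IsFlow K θ) (h : T.IsLoop c s ℓ H) {m : ℕ} (hm : 1 ≤ m) :
    ∃ Y : Finset V, (∀ u v, u ∈ T.hull (H : Set V) m → v ∉ T.hull (H : Set V) m → T.Adj u v →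
        u ∉ H → u ∈ Y) ∧
      (open Classical in
      (H.card : ℤ) + (m + 1) * Y.card ≤ ∑ k ∈ Finset.range ℓ,
        (if T.rt ((T.nx c)^[k] s) ∈ T.hull (H : Set V) m then 0 else θ ((T.nx c)^[k] s))
        + K * Δ * Y.card) := by
  classical
  set Y : Finset V := (BayCtx.Ys_finite hc hm).toFinset with hY
  have hYmem : ∀ y, y ∈ Y ↔ y ∈ BayCtx.Ys T H m := fun y => by rw [hY, Set.Finite.mem_toFinset]
  have hN : ∀ y ∉ H, (T.bay (H : Set V) y).ncard ≤ K * (ℓ + Δ) :=
    fun y _ => bay_card_le hfl hc hΔ hθ h y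
  let bayF : V → Finset V := fun y => (BayCtx.bay_finite hc y).toFinset
  have hbayF : ∀ y x, x ∈ bayF y ↔ x ∈ T.bay (H : Set V) y := fun y x => by
    simp only [bayF, Set.Finite.mem_toFinset]
  let F : Finset V := H ∪ Y.biUnion (fun y => insert y (bayF y))
  have hF : ∀ x, x ∈ F ↔ x ∈ T.hull (H : Set V) m := by
    intro x
    simp only [F, Finset.mem_union, Finset.mem_biUnion, Finset.mem_insert, hbayF, hYmem]
    constructor
    · rintro (hx | ⟨y, hy, hx⟩)
      · exact Or.inl hx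
      · exact Or.inr ⟨y, hy.1, hy.2.1, hx⟩
    · rintro (hx | ⟨y, hy, hm', hx⟩)
      · exact Or.inl hx
      · right
        exact BayCtx.exists_max hc hN hy hm' hx
  have hexit : ∀ u v, u ∈ T.hull (H : Set V) m → v ∉ T.hull (H : Set V) m → T.Adj u v →
        u ∉ H → u ∈ Y := by
    intro u v hu hv huv huH
    rw [← hF] at hu hv
    simp only [F, Finset.mem_union, Finset.mem_biUnion, Finset.mem_insert, hbayF] at hu hv
    rcases hu with hu | ⟨y, hy, hu | hu⟩
    · exact absurd hu huH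
    · rw [hu]; exact hy
    · exfalso
      apply hv
      right
      refine ⟨y, hy, ?_⟩
      by_cases hvy : v = y
      · exact Or.inl hvy
      · exact Or.inr (BayCtx.bay_closed hu (fun h => hv (Or.inl h)) hvy huv)
  refine ⟨Y, hexit, ?_⟩
  -- cardinality
  have hcard : H.card + (m + 1) * Y.card ≤ F.card := by
    have hdisj1 : Disjoint H (Y.biUnion (fun y => insert y (bayF y))) := by
      rw [Finset.disjoint_left]
      intro x hx hx'
      simp only [Finset.mem_biUnion, Finset.mem_insert, hbayF, hYmem] at hx'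
      obtain ⟨y, hy, hx' | hx'⟩ := hx'
      · rw [hx'] at hx; exact hy.1 hx
      · exact hx'.1 hx
    have hdisj2 : ∀ y ∈ Y, ∀ y' ∈ Y, y ≠ y' →
        Disjoint (insert y (bayF y)) (insert y' (bayF y')) := by
      intro y hy y' hy' hne
      have h1 := BayCtx.Ys_disj hc ((hYmem y).1 hy) ((hYmem y').1 hy') hne
      rw [Finset.disjoint_left]
      intro x hx hx'
      rw [Set.disjoint_left] at h1
      refine h1 (a := x) ?_ ?_
      · rw [Finset.mem_insert, hbayF] at hx
        exact hx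
      · rw [Finset.mem_insert, hbayF] at hx'
        exact hx'
    have h2 : F.card = H.card + ∑ y ∈ Y, (insert y (bayF y)).card := by
      simp only [F]
      rw [Finset.card_union_of_disjoint hdisj1, Finset.card_biUnion hdisj2]
    rw [h2]
    have h3 : ∀ y ∈ Y, m + 1 ≤ (insert y (bayF y)).card := by
      intro y hy
      rw [Finset.card_insert_of_notMem (by rw [hbayF]; exact fun h => h.2.1 rfl)]
      have h4 := ((hYmem y).1 hy).2.1
      rw [Set.ncard_eq_toFinset_card _ (BayCtx.bay_finite hc y)] at h4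
      change m ≤ (bayF y).card at h4
      omega
    have h5 := Finset.sum_le_sum h3
    rw [Finset.sum_const, smul_eq_mul] at h5
    rw [Nat.mul_comm (m + 1)]
    omega
  -- flux
  have hflux := hfl D V T K θ F hθ
  have hsplit : ∑ d ∈ T.bd F, θ d = ∑ d ∈ (T.bd F).filter (fun d => T.lf d ∈ H), θ d
      + ∑ d ∈ (T.bd F).filter (fun d => ¬ T.lf d ∈ H), θ d :=
    (Finset.sum_filter_add_sum_filter_not _ _ _).symm
  have h6 : ∑ d ∈ (T.bd F).filter (fun d => T.lf d ∈ H), θ d
      = ∑ k ∈ Finset.range ℓ,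
        (if T.rt ((T.nx c)^[k] s) ∈ T.hull (H : Set V) m then 0 else θ ((T.nx c)^[k] s)) := by
    rw [← IsLoop.sum_bd h (fun d => if T.rt d ∈ T.hull (H : Set V) m then 0 else θ d)]
    have hite : ∀ d, (if T.rt d ∈ T.hull (H : Set V) m then 0 else θ d)
        = (if T.rt d ∉ T.hull (H : Set V) m then θ d else 0) := by
      intro d
      by_cases hd : T.rt d ∈ T.hull (H : Set V) m
      · rw [if_pos hd, if_neg (not_not.2 hd)]
      · rw [if_neg hd, if_pos hd]
    rw [Finset.sum_congr rfl (fun d _ => hite d), ← Finset.sum_filter]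
    apply Finset.sum_congr _ (fun _ _ => rfl)
    ext d
    simp only [Finset.mem_filter, mem_bd]
    constructor
    · rintro ⟨⟨h1, h2⟩, h3⟩
      rw [hF] at h2
      exact ⟨⟨h3, fun h4 => h2 (Or.inl h4)⟩, h2⟩
    · rintro ⟨⟨h1, h2⟩, h3⟩
      refine ⟨⟨?_, ?_⟩, h1⟩
      · rw [hF]; exact Or.inl h1
      · rw [hF]; exact h3
  have h7 : ∑ d ∈ (T.bd F).filter (fun d => ¬ T.lf d ∈ H), θ d ≤ K * Δ * Y.card := by
    have h8 : ∑ d ∈ (T.bd F).filter (fun d => ¬ T.lf d ∈ H), θ d
        ≤ ∑ d ∈ (T.bd F).filter (fun d => ¬ T.lf d ∈ H), (K : ℤ) :=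
      Finset.sum_le_sum (fun d _ => (le_abs_self _).trans (hθ.bdd d))
    refine h8.trans ?_
    rw [Finset.sum_const, nsmul_eq_mul]
    have h9 : ((T.bd F).filter (fun d => ¬ T.lf d ∈ H)).card ≤ Δ * Y.card := by
      have h10 : (T.bd F).filter (fun d => ¬ T.lf d ∈ H) ⊆ Y.biUnion T.star := by
        intro d hd
        rw [Finset.mem_filter, mem_bd] at hd
        rw [Finset.mem_biUnion]
        refine ⟨T.lf d, ?_, (T.mem_star _ _).2 rfl⟩
        exact hexit _ _ ((hF _).1 hd.1.1) (fun h => hd.1.2 ((hF _).2 h)) (T.adj_lf_rt d) hd.2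
      refine (Finset.card_le_card h10).trans (Finset.card_biUnion_le.trans ?_)
      refine (Finset.sum_le_sum (fun v _ => hΔ v)).trans ?_
      simp [Nat.mul_comm]
    have h11 : ((((T.bd F).filter (fun d => ¬ T.lf d ∈ H)).card : ℕ) : ℤ) ≤ ((Δ * Y.card : ℕ) : ℤ) := by
      exact_mod_cast h9
    push_cast at h11
    have hK : (0 : ℤ) ≤ K := by positivity
    nlinarith
  have hcard' : (H.card : ℤ) + (m + 1) * Y.card ≤ F.card := by exact_mod_cast hcard
  rw [hsplit, h6] at hflux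
  linarith

/-- **DRIFT** -/
theorem drift (hfl : FluxSetStmt) (hinf : InfStmt) (hoe : OEStmt) : FinDriftStmt := by
  classical
  intro D V T Δ K θ c s ℓ H m hT hΔ hθ h hm
  have hc := bayCtx hoe hinf hT hθ h
  have h0 := KΔ_pos hΔ hθ (T.lf s)
  obtain ⟨Y, _, h1⟩ := hull_props hfl hc hΔ hθ h (m := m) (by omega)
  have h2 : (ℓ : ℤ) ≤ Δ * H.card := by
    have h3 := card_bd_le hΔ H
    rw [IsLoop.card_bd h] at h3
    exact_mod_cast h3
  have h3 : ((K * Δ : ℕ) : ℤ) ≤ m := by exact_mod_cast hm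
  push_cast at h3
  have hY : (0 : ℤ) ≤ Y.card := by positivity
  have h4 : (K : ℤ) * Δ * Y.card ≤ m * Y.card := mul_le_mul_of_nonneg_right h3 hY
  have h5 : (H.card : ℤ) ≤ ∑ k ∈ Finset.range ℓ,
        (if T.rt ((T.nx c)^[k] s) ∈ T.hull (H : Set V) m then 0 else θ ((T.nx c)^[k] s)) := by
    linarith
  refine h2.trans ?_
  have hΔ0 : (0 : ℤ) ≤ Δ := by positivity
  exact (mul_le_mul_of_nonneg_left h5 hΔ0).trans (le_of_eq (by congr 1))

/-- **CHANGE** -/
theorem change (hfl : FluxSetStmt) (hinf : InfStmt) (hoe : OEStmt) : FinChangeStmt := by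
  classical
  intro D V T Δ K θ c s ℓ H m hT hΔ hθ h hm
  have hc := bayCtx hoe hinf hT hθ h
  obtain ⟨Y, hex, h1⟩ := hull_props hfl hc hΔ hθ h (m := m) hm
  have hadj : ∀ k, T.rt ((T.nx c)^[k] s) = T.rt ((T.nx c)^[k + 1] s) ∨
      T.Adj (T.rt ((T.nx c)^[k] s)) (T.rt ((T.nx c)^[k + 1] s)) := by
    intro k
    have h1 := (IsLoop.st h).lf_succ (k : ℤ)
    have e1 : T.st c s ((k : ℤ) + 1) = (T.nx c)^[k + 1] s := by
      have : ((k : ℤ) + 1) = ((k + 1 : ℕ) : ℤ) := by push_cast; ring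
      rw [this, TMap.st_natCast]
    rw [e1, TMap.st_natCast] at h1
    rcases h1 with ⟨_, h1, _⟩ | ⟨h1, _⟩
    · right
      rw [h1]
      exact (T.adj_tau_rt _).symm
    · exact Or.inl h1.symm
  -- the two kinds of changes
  have hC1 : ((Finset.range ℓ).filter (fun k => T.rt ((T.nx c)^[k] s) ∈ T.hull (H : Set V) m ∧
      T.rt ((T.nx c)^[k + 1] s) ∉ T.hull (H : Set V) m)).card ≤ Δ * Y.card := by
    apply count_rt hΔ _ (fun j => (T.nx c)^[j] s) Y
    · intro a ha b hb hab
      rw [Finset.mem_filter, Finset.mem_range] at ha hb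
      rcases lt_trichotomy a b with hlt | hlt | hlt
      · exact absurd hab (IsLoop.ne h hlt (by omega))
      · exact hlt
      · exact absurd hab.symm (IsLoop.ne h hlt (by omega))
    · intro j hj
      rw [Finset.mem_filter] at hj
      rcases hadj j with h2 | h2
      · exact absurd (h2 ▸ hj.2.1) hj.2.2
      · exact hex _ _ hj.2.1 hj.2.2 h2 (IsLoop.mem h j).2
  have hC2 : ((Finset.range ℓ).filter (fun k => T.rt ((T.nx c)^[k] s) ∉ T.hull (H : Set V) m ∧
      T.rt ((T.nx c)^[k + 1] s) ∈ T.hull (H : Set V) m)).card ≤ Δ * Y.card := by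
    apply count_rt hΔ _ (fun j => (T.nx c)^[j + 1] s) Y
    · intro a ha b hb hab
      rw [Finset.mem_filter, Finset.mem_range] at ha hb
      rcases lt_trichotomy a b with hlt | hlt | hlt
      · exact absurd hab (IsLoop.ne h (by omega) (by omega))
      · exact hlt
      · exact absurd hab.symm (IsLoop.ne h (by omega) (by omega))
    · intro j hj
      rw [Finset.mem_filter] at hj
      rcases hadj j with h2 | h2
      · exact absurd (h2 ▸ hj.2.2) hj.2.1
      · exact hex _ _ hj.2.2 hj.2.1 h2.symm (IsLoop.mem h (j + 1)).2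
  have hcount : ((Finset.range ℓ).filter (fun k =>
      ¬ (T.rt ((T.nx c)^[k] s) ∈ T.hull (H : Set V) m ↔
         T.rt ((T.nx c)^[k + 1] s) ∈ T.hull (H : Set V) m))).card ≤ 2 * Δ * Y.card := by
    have hsub : (Finset.range ℓ).filter (fun k =>
      ¬ (T.rt ((T.nx c)^[k] s) ∈ T.hull (H : Set V) m ↔
         T.rt ((T.nx c)^[k + 1] s) ∈ T.hull (H : Set V) m))
        ⊆ (Finset.range ℓ).filter (fun k => T.rt ((T.nx c)^[k] s) ∈ T.hull (H : Set V) m ∧
      T.rt ((T.nx c)^[k + 1] s) ∉ T.hull (H : Set V) m) ∪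
        (Finset.range ℓ).filter (fun k => T.rt ((T.nx c)^[k] s) ∉ T.hull (H : Set V) m ∧
      T.rt ((T.nx c)^[k + 1] s) ∈ T.hull (H : Set V) m) := by
      intro k hk
      rw [Finset.mem_filter] at hk
      rw [Finset.mem_union, Finset.mem_filter, Finset.mem_filter]
      obtain ⟨hk1, hk2⟩ := hk
      by_cases ha : T.rt ((T.nx c)^[k] s) ∈ T.hull (H : Set V) m
      · by_cases hb : T.rt ((T.nx c)^[k + 1] s) ∈ T.hull (H : Set V) m
        · exact absurd ⟨fun _ => hb, fun _ => ha⟩ hk2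
        · exact Or.inl ⟨hk1, ha, hb⟩
      · by_cases hb : T.rt ((T.nx c)^[k + 1] s) ∈ T.hull (H : Set V) m
        · exact Or.inr ⟨hk1, ha, hb⟩
        · exact absurd ⟨fun h => absurd h ha, fun h => absurd h hb⟩ hk2
    refine (Finset.card_le_card hsub).trans ((Finset.card_union_le _ _).trans ?_)
    have : 2 * Δ * Y.card = Δ * Y.card + Δ * Y.card := by ring
    omega
  have hcount2 : ((Finset.range ℓ).filter (fun k =>
      ¬ (T.rt ((T.nx c)^[k] s) ∈ T.hull (H : Set V) m ↔
         T.rt ((T.nx c)^[k + 1] s) ∈ T.hull (H : Set V) m))).card ≤ ℓ := by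
    refine (Finset.card_filter_le _ _).trans ?_
    rw [Finset.card_range]
  have hS : ∑ k ∈ Finset.range ℓ,
        (if T.rt ((T.nx c)^[k] s) ∈ T.hull (H : Set V) m then 0 else θ ((T.nx c)^[k] s))
        ≤ (K : ℤ) * ℓ := by
    have h2 : ∑ k ∈ Finset.range ℓ,
        (if T.rt ((T.nx c)^[k] s) ∈ T.hull (H : Set V) m then 0 else θ ((T.nx c)^[k] s))
        ≤ ∑ k ∈ Finset.range ℓ, (K : ℤ) := by
      apply Finset.sum_le_sum
      intro k _
      split_ifs
      · positivity
      · exact (le_abs_self _).trans (hθ.bdd _)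
    rw [Finset.sum_const, Finset.card_range, nsmul_eq_mul] at h2
    linarith
  generalize hCdef : ((Finset.range ℓ).filter (fun k =>
      ¬ (T.rt ((T.nx c)^[k] s) ∈ T.hull (H : Set V) m ↔
         T.rt ((T.nx c)^[k + 1] s) ∈ T.hull (H : Set V) m))).card = C at hcount hcount2
  have goal : m * C ≤ 4 * Δ * K * ℓ := by
    rcases Nat.lt_or_ge m (2 * (K * Δ)) with hlt | hge
    · calc m * C ≤ (2 * (K * Δ)) * ℓ := Nat.mul_le_mul hlt.le hcount2
        _ ≤ 4 * Δ * K * ℓ := by
          have : 4 * Δ * K * ℓ = (2 * (K * Δ)) * ℓ + (2 * (K * Δ)) * ℓ := by ring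
          omega
    · have h3 : (m : ℤ) * Y.card ≤ 2 * (K * ℓ) := by
        have hge' : (2 : ℤ) * (K * Δ) ≤ m := by exact_mod_cast hge
        have hY : (0 : ℤ) ≤ Y.card := by positivity
        have h4 : (2 : ℤ) * (K * Δ) * Y.card ≤ m * Y.card := mul_le_mul_of_nonneg_right hge' hY
        have hH : (0 : ℤ) ≤ H.card := by positivity
        nlinarith
      have h5 : m * Y.card ≤ 2 * (K * ℓ) := by exact_mod_cast h3
      calc m * C ≤ m * (2 * Δ * Y.card) := Nat.mul_le_mul_left m hcount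
        _ = 2 * Δ * (m * Y.card) := by ring
        _ ≤ 2 * Δ * (2 * (K * ℓ)) := Nat.mul_le_mul_left _ h5
        _ = 4 * Δ * K * ℓ := by ring
  convert goal using 2

end Pool.Agent.BS.H9
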