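import Pool.Agent.Helper47_BS.Basic

/-! # BS squad, helper9: auxiliary lemmas

Reachability and components, rotation around the right vertex, and a general lemma on closed turn
paths of the form 'strand followed by a rotation'. -/

set_option autoImplicit false

namespace Pool.Agent.BS.H9

open Function Pool.Agent.BS

variable {D V : Type} {T : TMap D V}

/-! ### reachability -/

/-- everything reachable inside the complement of `Z` from `x` -/
def comp (T : TMap D V) (Z : Set V) (x : V) : Set V := {z | T.Reach Z x z}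

theorem Reach.refl (Z : Set V) (x : V) : T.Reach Z x x := Relation.ReflTransGen.refl

theorem Reach.trans {Z : Set V} {x y z : V} (h : T.Reach Z x y) (h' : T.Reach Z y z) :
    T.Reach Z x z := Relation.ReflTransGen.trans h h'

theorem Reach.tail {Z : Set V} {x y z : V} (h : T.Reach Z x y) (hz : z ∉ Z) (h' : T.Adj y z) :
    T.Reach Z x z := Relation.ReflTransGen.tail h ⟨hz, h'⟩

theorem Reach.notMem {Z : Set V} {x y : V} (h : T.Reach Z x y) (hx : x ∉ Z) : y ∉ Z := by
  induction h with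
  | refl => exact hx
  | tail _ h2 _ => exact h2.1

theorem Reach.symm {Z : Set V} {x y : V} (h : T.Reach Z x y) (hx : x ∉ Z) : T.Reach Z y x := by
  induction h with
  | refl => exact Reach.refl Z x
  | @tail y z h1 h2 ih =>
    have hy : y ∉ Z := Reach.notMem h1 hx
    exact Reach.trans (Reach.tail (Reach.refl Z z) hy h2.2.symm) ih

theorem Reach.mono {Z Z' : Set V} (hZ : Z' ⊆ Z) {x y : V} (h : T.Reach Z x y) : T.Reach Z' x y := by
  induction h with
  | refl => exact Reach.refl _ _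
  | tail _ h2 ih => exact Reach.tail ih (fun h => h2.1 (hZ h)) h2.2

/-- a path inside `S` -/
theorem Reach.into {Z : Set V} {S : Set V} {x y : V} (h : T.Reach Z x y) (hx : x ∈ S)
    (hS : ∀ u v, u ∈ S → v ∉ Z → T.Adj u v → v ∈ S) : y ∈ S := by
  induction h with
  | refl => exact hx
  | tail _ h2 ih => exact hS _ _ ih h2.1 h2.2

/-- a path from inside `S` to outside has an exit -/
theorem Reach.exit {Z : Set V} {S : Set V} {x y : V} (h : T.Reach Z x y) (hx : x ∈ S)
    (hy : y ∉ S) : ∃ u v, T.Reach Z x u ∧ u ∈ S ∧ v ∉ S ∧ v ∉ Z ∧ T.Adj u v ∧ T.Reach Z x v := by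
  by_contra hc
  have : ∀ z, T.Reach Z x z → z ∈ S := by
    intro z hz
    induction hz with
    | refl => exact hx
    | @tail u v h1 h2 ih =>
      by_contra hv
      exact hc ⟨u, v, h1, ih, hv, h2.1, h2.2, Reach.tail h1 h2.1 h2.2⟩
  exact hy (this y h)

/-- every vertex has a dart -/
theorem exists_dart (T : TMap D V) (v : V) : ∃ d, T.lf d = v := by
  obtain ⟨d, hd⟩ := T.star_ne v
  exact ⟨d, (T.mem_star v d).1 hd⟩

/-- a set of vertices closed under adjacency and nonempty is everything -/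
theorem eq_univ_of_adj {S : Set V} (hne : S.Nonempty)
    (hS : ∀ u v, u ∈ S → T.Adj u v → v ∈ S) : S = Set.univ := by
  obtain ⟨x, hx⟩ := hne
  obtain ⟨d, hd⟩ := exists_dart T x
  have hclosed : ∀ e, T.lf e ∈ S := by
    intro e
    refine T.dart_induction (p := fun e => T.lf e ∈ S) d (by rw [hd]; exact hx) ?_ ?_ ?_ e
    · intro e he; rw [T.lf_lam]; exact he
    · intro e he; rw [T.lf_lam_symm]; exact he
    · intro e he
      exact hS _ _ he (T.adj_lf_rt e)
  ext v
  simp only [Set.mem_univ, iff_true]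
  obtain ⟨e, he⟩ := exists_dart T v
  rw [← he]
  exact hclosed e

theorem reach_empty (x y : V) : T.Reach ∅ x y := by
  have h : comp T ∅ x = Set.univ :=
    eq_univ_of_adj ⟨x, Reach.refl _ _⟩ (fun u v hu huv => Reach.tail hu (by simp) huv)
  have : y ∈ comp T ∅ x := by rw [h]; trivial
  exact this

/-- components are equal -/
theorem comp_eq {Z : Set V} {x y : V} (h : T.Reach Z x y) (hx : x ∉ Z) : comp T Z x = comp T Z y := by
  ext z
  exact ⟨fun hz => Reach.trans (Reach.symm h hx) hz, fun hz => Reach.trans h hz⟩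

/-- the set of neighbours of a finite set is finite -/
theorem finite_stars {Z : Set V} (hZ : Z.Finite) : {d | T.lf d ∈ Z}.Finite := by
  classical
  refine (hZ.toFinset.biUnion T.star).finite_toSet.subset ?_
  intro d hd
  simp only [Finset.coe_biUnion, Set.mem_iUnion]
  exact ⟨T.lf d, by simpa using hd, by simp [T.mem_star]⟩

theorem finite_stars_rt {Z : Set V} (hZ : Z.Finite) : {d | T.rt d ∈ Z}.Finite := by
  have h := finite_stars (T := T) hZ
  refine (h.image T.al).subset ?_
  intro d hd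
  exact ⟨T.al d, hd, T.al_al d⟩

/-! ### rotation around the right vertex -/

theorem rho_pow_apply (n : ℕ) (d : D) : (T.rho ^ n) d = T.al ((T.lam.symm ^ n) (T.al d)) := by
  induction n with
  | zero => simp
  | succ n ih =>
    rw [pow_succ', Equiv.Perm.mul_apply, ih, T.rho_apply, T.al_al, pow_succ', Equiv.Perm.mul_apply]

theorem rt_rho_pow (n : ℕ) (d : D) : T.rt ((T.rho ^ n) d) = T.rt d := by
  induction n with
  | zero => simp
  | succ n ih => rw [pow_succ', Equiv.Perm.mul_apply, T.rt_rho, ih]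

theorem lf_lam_pow (n : ℕ) (d : D) : T.lf ((T.lam ^ n) d) = T.lf d := by
  induction n with
  | zero => simp
  | succ n ih => rw [pow_succ', Equiv.Perm.mul_apply, T.lf_lam, ih]

theorem rho_cyc (d d' : D) (h : T.rt d = T.rt d') : ∃ n : ℕ, (T.rho ^ n) d = d' := by
  obtain ⟨n, hn⟩ := T.mirror.cyc (T.al d) (T.al d') h
  refine ⟨n, ?_⟩
  rw [rho_pow_apply]
  change (T.lam.symm ^ n) (T.al d) = T.al d' at hn
  rw [hn, T.al_al]

/-! ### turn paths -/

theorem nx_turn (c : V → Bool) (d : D) : T.nx c d = T.lam d ∨ T.nx c d = T.rho d := by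
  unfold TMap.nx
  split_ifs
  · right; rfl
  · left; rfl

/-- number of passages, in terms of cardinalities -/
theorem cnt_eq (T : TMap D V) [DecidableEq D] (p : ℕ → D) (n : ℕ) (d : D) :
    T.cnt p n d = (((Finset.range n).filter (fun k => p k = d)).card : ℤ)
      - ((Finset.range n).filter (fun k => p k = T.al d)).card := by
  unfold TMap.cnt
  rw [Finset.sum_sub_distrib]
  congr 1
  · rw [Finset.card_filter]
    push_cast
    apply Finset.sum_congr rfl
    intro k _
    split_ifs <;> rfl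
  · rw [Finset.card_filter]
    push_cast
    apply Finset.sum_congr rfl
    intro k _
    split_ifs <;> rfl

theorem cnt_eq_zero (p : ℕ → D) (n : ℕ) (d : D) (h : ∀ k < n, p k ≠ d ∧ p k ≠ T.al d) :
    T.cnt p n d = 0 := by
  unfold TMap.cnt
  refine Finset.sum_eq_zero ?_
  intro k hk
  have := h k (Finset.mem_range.1 hk)
  rw [if_neg this.1, if_neg this.2]
  rfl

/-- exactly one passage -/
theorem cnt_eq_one (p : ℕ → D) (n : ℕ) (d : D) (i : ℕ) (hi : i < n) (hp : p i = d)
    (h1 : ∀ k < n, k ≠ i → p k ≠ d) (h2 : ∀ k < n, p k ≠ T.al d) :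
    T.cnt p n d = 1 := by
  unfold TMap.cnt
  rw [Finset.sum_eq_single i]
  · rw [if_pos hp, if_neg (h2 i hi)]
    rfl
  · intro k hk hki
    rw [if_neg (h1 k (Finset.mem_range.1 hk) hki), if_neg (h2 k (Finset.mem_range.1 hk))]
    rfl
  · intro h
    exact absurd (Finset.mem_range.2 hi) h

/-- **Strand followed by a rotation.** Let `q 0, ..., q m` be a turn path of distinct darts, no two of
which are opposite, and such that `q 0` and `q m` have the same vertex `b` (left if `R = lam`, right if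
`R = rho`, described by the function `v`). Closing up with the rotation `R` around `b` gives a closed
path whose potential is as expected. -/
theorem strand_rot (hT : T.Planar) (R : Equiv.Perm D) (v : D → V)
    (hR : ∀ d, R d = T.lam d ∨ R d = T.rho d) (hv : ∀ d, v (R d) = v d)
    (hcyc : ∀ d d', v d = v d' → ∃ n : ℕ, (R ^ n) d = d')
    (q : ℕ → D) (m : ℕ) (b : V) (hm : 0 < m) (hq : T.IsTurn q m)
    (hinj : ∀ i j, i ≤ m → j ≤ m → q i = q j → i = j)
    (hal : ∀ i j, i ≤ m → j ≤ m → T.al (q i) ≠ q j)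
    (h0 : v (q 0) = b) (h1 : v (q m) = b) (hvb : ∀ i ≤ m, v (T.al (q i)) ≠ b) :
    ∃ χ : V → ℤ, (support χ).Finite ∧
      (∀ d, (∀ t ≤ m, q t ≠ d ∧ q t ≠ T.al d) → v d ≠ b → v (T.al d) ≠ b →
        χ (T.lf d) = χ (T.rt d)) ∧
      (∀ t ≤ m, (v (q t) ≠ b ∨ t = 0) → χ (T.lf (q t)) - χ (T.rt (q t)) = 1) ∧
      ∃ (p : ℕ → D) (n : ℕ), T.IsTurn p n ∧ p n = p 0 ∧
        (∀ d, T.cnt p n d = χ (T.lf d) - χ (T.rt d)) ∧ m < n ∧ (∀ t ≤ m, p t = q t) ∧
        (∀ t, m ≤ t → p t = (R ^ (t - m)) (q m)) ∧ (∀ t, m ≤ t → v (p t) = b) ∧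
        (∀ t t', m ≤ t → t < t' → t' < n → p t ≠ p t') ∧ (∀ t, 0 < t → t < n → p t ≠ q 0) := by
  classical
  have hvpow : ∀ (n : ℕ) (d : D), v ((R ^ n) d) = v d := by
    intro n d
    induction n with
    | zero => simp
    | succ n ih => rw [pow_succ', Equiv.Perm.mul_apply, hv, ih]
  have hex : ∃ n : ℕ, (R ^ n) (q m) = q 0 := hcyc _ _ (h1.trans h0.symm)
  set M := Nat.find hex with hM
  have hMs : (R ^ M) (q m) = q 0 := Nat.find_spec hex
  have hMmin : ∀ k, k < M → (R ^ k) (q m) ≠ q 0 := fun k hk => Nat.find_min hex hk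
  have hMpos : 0 < M := by
    rcases Nat.eq_zero_or_pos M with h | h
    · exfalso
      rw [h] at hMs
      have := hinj m 0 le_rfl (Nat.zero_le _) (by simpa using hMs)
      omega
    · exact h
  -- distinctness of the rotation darts
  have hrot : ∀ a b : ℕ, a < b → b ≤ M → 0 < b - a → (R ^ a) (q m) = (R ^ b) (q m) → False := by
    intro a b hab hbM _ he
    -- R^(M - b + a) (q m) = q 0
    have : (R ^ (M - b + a)) (q m) = q 0 := by
      rw [pow_add, Equiv.Perm.mul_apply, he, ← Equiv.Perm.mul_apply, ← pow_add,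
        Nat.sub_add_cancel hbM, hMs]
    exact hMmin _ (by omega) this
  let p : ℕ → D := fun t => if t ≤ m then q t else (R ^ (t - m)) (q m)
  let n := m + M
  have hp1 : ∀ t ≤ m, p t = q t := fun t ht => if_pos ht
  have hp2 : ∀ t, m ≤ t → p t = (R ^ (t - m)) (q m) := by
    intro t ht
    rcases Nat.lt_or_ge m t with h | h
    · exact if_neg (by omega)
    · have : t = m := by omega
      subst this
      simp [p]
  have hturn : T.IsTurn p n := by
    intro k hk
    rcases Nat.lt_or_ge k m with h | h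
    · rw [hp1 k h.le, hp1 (k + 1) h]
      exact hq k h
    · rw [hp2 k h, hp2 (k + 1) (by omega)]
      have : k + 1 - m = (k - m) + 1 := by omega
      rw [this, pow_succ', Equiv.Perm.mul_apply]
      exact hR _
  have hclosed : p n = p 0 := by
    rw [hp2 n (by simp [n]), hp1 0 (Nat.zero_le _)]
    have : n - m = M := by simp [n]
    rw [this, hMs]
  obtain ⟨χ, hχ1, hχ2⟩ := hT p n hturn hclosed
  have hvp : ∀ t, m ≤ t → v (p t) = b := by
    intro t ht
    rw [hp2 t ht, hvpow, h1]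
  have hp0 : ∀ t, 0 < t → t < n → p t ≠ q 0 := by
    intro t ht htn he
    rcases Nat.lt_or_ge m t with h | h
    · rw [hp2 t h.le] at he
      exact hMmin _ (by simp only [n] at htn; omega) he
    · rw [hp1 t h] at he
      have := hinj t 0 h (Nat.zero_le _) he
      omega
  refine ⟨χ, hχ1, ?_, ?_, p, n, hturn, hclosed, hχ2, by simp only [n]; omega, hp1, hp2, hvp, ?_, hp0⟩
  · intro d hd hb1 hb2
    have hz : T.cnt p n d = 0 := by
      apply cnt_eq_zero
      intro k hk
      rcases Nat.lt_or_ge m k with h | h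
      · constructor
        · intro he
          exact hb1 (by rw [← he]; exact hvp k h.le)
        · intro he
          exact hb2 (by rw [← he]; exact hvp k h.le)
      · rw [hp1 k h]
        exact hd k h
    have := hχ2 d
    rw [hz] at this
    linarith
  · intro t ht hor
    rw [← hχ2 (q t)]
    apply cnt_eq_one p n (q t) t (by simp only [n]; omega) (hp1 t ht)
    · intro k hk hkt he
      rcases Nat.lt_or_ge m k with h | h
      · rcases hor with h' | h'
        · exact h' (by rw [← he]; exact hvp k h.le)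
        · subst h'
          exact hp0 k (by omega) hk he
      · rw [hp1 k h] at he
        exact hkt (hinj k t h ht he)
    · intro k hk he
      rcases Nat.lt_or_ge m k with h | h
      · exact hvb t ht (by rw [← he]; exact hvp k h.le)
      · rw [hp1 k h] at he
        exact hal t k ht h he.symm
  · intro t t' ht htt' ht' he
    rw [hp2 t ht, hp2 t' (by omega)] at he
    exact hrot (t - m) (t' - m) (by omega) (by simp only [n] at ht'; omega) (by omega) he

/-- the version with `R = rho` -/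
theorem strand_rho (hT : T.Planar) (q : ℕ → D) (m : ℕ) (b : V) (hm : 0 < m) (hq : T.IsTurn q m)
    (hinj : ∀ i j, i ≤ m → j ≤ m → q i = q j → i = j)
    (hal : ∀ i j, i ≤ m → j ≤ m → T.al (q i) ≠ q j)
    (h0 : T.rt (q 0) = b) (h1 : T.rt (q m) = b) (hvb : ∀ i ≤ m, T.lf (q i) ≠ b) :
    ∃ χ : V → ℤ, (support χ).Finite ∧
      (∀ d, (∀ t ≤ m, q t ≠ d ∧ q t ≠ T.al d) → T.rt d ≠ b → T.lf d ≠ b →
        χ (T.lf d) = χ (T.rt d)) ∧
      (∀ t ≤ m, (T.rt (q t) ≠ b ∨ t = 0) → χ (T.lf (q t)) - χ (T.rt (q t)) = 1) ∧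
      ∃ (p : ℕ → D) (n : ℕ), T.IsTurn p n ∧ p n = p 0 ∧
        (∀ d, T.cnt p n d = χ (T.lf d) - χ (T.rt d)) ∧ m < n ∧ (∀ t ≤ m, p t = q t) ∧
        (∀ t, m ≤ t → p t = (T.rho ^ (t - m)) (q m)) ∧ (∀ t, m ≤ t → T.rt (p t) = b) ∧
        (∀ t t', m ≤ t → t < t' → t' < n → p t ≠ p t') ∧ (∀ t, 0 < t → t < n → p t ≠ q 0) := by
  obtain ⟨χ, h⟩ := strand_rot hT T.rho T.rt (fun d => Or.inr rfl) T.rt_rho rho_cyc q m b hm hq hinj hal
    h0 h1 (by intro i hi; rw [T.rt_al]; exact hvb i hi)
  refine ⟨χ, h.1, ?_, h.2.2⟩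
  intro d h1 h2 h3
  exact h.2.1 d h1 h2 (by rw [T.rt_al]; exact h3)

/-- the version with `R = lam` -/
theorem strand_lam (hT : T.Planar) (q : ℕ → D) (m : ℕ) (b : V) (hm : 0 < m) (hq : T.IsTurn q m)
    (hinj : ∀ i j, i ≤ m → j ≤ m → q i = q j → i = j)
    (hal : ∀ i j, i ≤ m → j ≤ m → T.al (q i) ≠ q j)
    (h0 : T.lf (q 0) = b) (h1 : T.lf (q m) = b) (hvb : ∀ i ≤ m, T.rt (q i) ≠ b) :
    ∃ χ : V → ℤ, (support χ).Finite ∧
      (∀ d, (∀ t ≤ m, q t ≠ d ∧ q t ≠ T.al d) → T.rt d ≠ b → T.lf d ≠ b →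
        χ (T.lf d) = χ (T.rt d)) ∧
      (∀ t ≤ m, (T.lf (q t) ≠ b ∨ t = 0) → χ (T.lf (q t)) - χ (T.rt (q t)) = 1) ∧
      ∃ (p : ℕ → D) (n : ℕ), T.IsTurn p n ∧ p n = p 0 ∧
        (∀ d, T.cnt p n d = χ (T.lf d) - χ (T.rt d)) ∧ m < n ∧ (∀ t ≤ m, p t = q t) ∧
        (∀ t, m ≤ t → p t = (T.lam ^ (t - m)) (q m)) ∧ (∀ t, m ≤ t → T.lf (p t) = b) ∧
        (∀ t t', m ≤ t → t < t' → t' < n → p t ≠ p t') ∧ (∀ t, 0 < t → t < n → p t ≠ q 0) := by
  obtain ⟨χ, h⟩ := strand_rot hT T.lam T.lf (fun d => Or.inl rfl) T.lf_lam T.cyc q m b hm hq hinj hal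
    h0 h1 (by intro i hi; exact hvb i hi)
  refine ⟨χ, h.1, ?_, h.2.2⟩
  intro d h1 h2 h3
  exact h.2.1 d h1 h3 h2

end Pool.Agent.BS.H9
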