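import Pool.Agent.Helper47_BS.Stmts
import Pool.Agent.Helper9_BS.Tools

/-! # BS squad, module LOOP: basic facts on finite interface loops -/

set_option autoImplicit false

namespace Pool.Agent.BS.H9

open Function Pool.Agent.BS

variable {D V : Type} {T : TMap D V} {c : V → Bool} {s : D} {ℓ : ℕ} {H : Finset V}

theorem State.iterate_inj (h : T.State c s) {i j : ℕ} (hij : i ≤ j)
    (he : (T.nx c)^[i] s = (T.nx c)^[j] s) : (T.nx c)^[j - i] s = s := by
  induction i generalizing j with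
  | zero => simpa using he.symm
  | succ i ih =>
    obtain ⟨j, rfl⟩ : ∃ j', j = j' + 1 := ⟨j - 1, by omega⟩
    rw [Function.iterate_succ_apply', Function.iterate_succ_apply'] at he
    have h2 := congrArg (T.pv c) he
    rw [(h.iterate_nx i).pv_nx, (h.iterate_nx j).pv_nx] at h2
    have := ih (by omega) h2
    rw [Nat.add_sub_add_right]
    exact this

namespace IsLoop

variable (h : T.IsLoop c s ℓ H)

include h

theorem pos : 0 < ℓ := h.1
theorem st : T.State c s := h.2.1
theorem per : (T.nx c)^[ℓ] s = s := h.2.2.1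
theorem bd (d : D) : (T.lf d ∈ H ∧ T.rt d ∉ H) ↔ ∃ k < ℓ, (T.nx c)^[k] s = d := h.2.2.2.2 d

theorem per_add (k : ℕ) : (T.nx c)^[k + ℓ] s = (T.nx c)^[k] s := by
  rw [Function.iterate_add_apply, per h]

theorem per_mul (k n : ℕ) : (T.nx c)^[k + n * ℓ] s = (T.nx c)^[k] s := by
  induction n with
  | zero => simp
  | succ n ih =>
    have : k + (n + 1) * ℓ = (k + n * ℓ) + ℓ := by ring
    rw [this, per_add h, ih]

theorem per_mod (k : ℕ) : (T.nx c)^[k % ℓ] s = (T.nx c)^[k] s := by
  have := per_mul h (k % ℓ) (k / ℓ)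
  rw [← this]
  congr 1
  rw [Nat.mul_comm]
  exact (Nat.mod_add_div k ℓ).symm ▸ rfl

theorem mem (k : ℕ) : T.lf ((T.nx c)^[k] s) ∈ H ∧ T.rt ((T.nx c)^[k] s) ∉ H := by
  rw [bd h]
  exact ⟨k % ℓ, Nat.mod_lt _ (pos h), per_mod h k⟩

theorem ne {i j : ℕ} (hij : i < j) (hj : j < i + ℓ) : (T.nx c)^[i] s ≠ (T.nx c)^[j] s := by
  intro he
  have h1 := State.iterate_inj (st h) hij.le he
  have h2 := h.2.2.2.1 0 (j - i) (by omega) (by omega)
  exact h2 h1.symm

/-- index of a loop dart in a prescribed window of length `ℓ` -/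
theorem exists_idx (d : D) (h1 : T.lf d ∈ H) (h2 : T.rt d ∉ H) (i : ℕ) :
    ∃ k, i ≤ k ∧ k < i + ℓ ∧ (T.nx c)^[k] s = d := by
  obtain ⟨k, hk, rfl⟩ := (bd h d).1 ⟨h1, h2⟩
  -- k + n ℓ in the window
  have hpos := pos h
  by_cases hle : i ≤ k
  · have hk2 : k < i + ℓ := by omega
    exact ⟨k, hle, hk2, rfl⟩
  · push Not at hle
    -- smallest n with i ≤ k + n ℓ
    let n := (i - k + ℓ - 1) / ℓ
    refine ⟨k + n * ℓ, ?_, ?_, per_mul h k n⟩
    · have h3 : i - k ≤ n * ℓ := by
        have := Nat.lt_div_mul_add (a := i - k + ℓ - 1) hpos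
        simp only [n]
        omega
      omega
    · have h4 : n * ℓ ≤ i - k + ℓ - 1 := Nat.div_mul_le_self _ _
      omega

theorem ne_al (i j : ℕ) : T.al ((T.nx c)^[i] s) ≠ (T.nx c)^[j] s := by
  intro he
  have h1 := (mem h j).1
  rw [← he, TMap.lf_al] at h1
  exact (mem h i).2 h1

/-- consecutive left vertices: connected in `H` -/
theorem reach_lf (k n : ℕ) : T.Reach (H : Set V)ᶜ (T.lf ((T.nx c)^[k] s)) (T.lf ((T.nx c)^[k + n] s)) := by
  induction n with
  | zero => exact Reach.refl _ _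
  | succ n ih =>
    have h1 := (st h).lf_succ ((k + n : ℕ) : ℤ)
    have e1 : T.st c s (((k + n : ℕ) : ℤ) + 1) = (T.nx c)^[k + (n + 1)] s := by
      have : (((k + n : ℕ) : ℤ) + 1) = ((k + (n + 1) : ℕ) : ℤ) := by push_cast; ring
      rw [this, TMap.st_natCast]
    rw [e1, TMap.st_natCast] at h1
    rcases h1 with ⟨h1, _⟩ | ⟨_, h1, _⟩
    · rw [h1]; exact ih
    · refine Reach.tail ih ?_ ?_
      · have := (mem h (k + (n + 1))).1
        simpa using this
      · rw [h1]; exact T.adj_lf_tau _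

theorem reach_rt (k n : ℕ) : T.Reach (H : Set V) (T.rt ((T.nx c)^[k] s)) (T.rt ((T.nx c)^[k + n] s)) := by
  induction n with
  | zero => exact Reach.refl _ _
  | succ n ih =>
    have h1 := (st h).lf_succ ((k + n : ℕ) : ℤ)
    have e1 : T.st c s (((k + n : ℕ) : ℤ) + 1) = (T.nx c)^[k + (n + 1)] s := by
      have : (((k + n : ℕ) : ℤ) + 1) = ((k + (n + 1) : ℕ) : ℤ) := by push_cast; ring
      rw [this, TMap.st_natCast]
    rw [e1, TMap.st_natCast] at h1
    rcases h1 with ⟨_, h1, _⟩ | ⟨h1, _⟩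
    · refine Reach.tail ih ?_ ?_
      · have := (mem h (k + (n + 1))).2
        simpa using this
      · rw [h1]; exact (T.adj_tau_rt _).symm
    · rw [h1]; exact ih

theorem conn_in : T.Conn (H : Set V) := by
  -- everything in `H` is connected to `lf s`
  have key : ∀ x ∈ (H : Set V), T.Reach (H : Set V)ᶜ x (T.lf s) := by
    intro x hx
    have hex : ∃ u v, T.Reach (H : Set V)ᶜ x u ∧ v ∉ H ∧ T.Adj u v := by
      have hs : T.rt s ∉ H := (mem h 0).2
      obtain ⟨u, v, _, hu, hv, _, huv, _⟩ := Reach.exit (T := T) (Z := ∅)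
        (S := comp T (H : Set V)ᶜ x) (reach_empty x (T.rt s)) (Reach.refl _ _) (by
          intro h1
          exact (Reach.notMem h1 (by simpa using hx)) (by simpa using hs))
      refine ⟨u, v, hu, ?_, huv⟩
      intro hvH
      exact hv (Reach.tail hu (by simpa using hvH) huv)
    obtain ⟨u, v, hu, hv, d, rfl, rfl⟩ := hex
    have huH : T.lf d ∈ H := by
      have := Reach.notMem hu (by simpa using hx)
      simpa using this
    obtain ⟨k, hk, hkd⟩ := (bd h d).1 ⟨huH, hv⟩
    have h1 := reach_lf h k (ℓ - k)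
    rw [hkd] at h1
    have : k + (ℓ - k) = ℓ := by omega
    rw [this, per h] at h1
    exact Reach.trans hu h1
  intro x hx y hy
  exact Reach.trans (key x hx) (Reach.symm (key y hy) (by simpa using hy))

theorem conn_out : T.Conn (H : Set V)ᶜ := by
  have key : ∀ x ∈ (H : Set V)ᶜ, T.Reach (H : Set V) x (T.rt s) := by
    intro x hx
    have hex : ∃ u v, T.Reach (H : Set V) x u ∧ v ∈ H ∧ T.Adj u v := by
      have hs : T.lf s ∈ H := (mem h 0).1
      obtain ⟨u, v, _, hu, hv, _, huv, _⟩ := Reach.exit (T := T) (Z := ∅)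
        (S := comp T (H : Set V) x) (reach_empty x (T.lf s)) (Reach.refl _ _) (by
          intro h1
          exact (Reach.notMem h1 (by simpa using hx)) (by simpa using hs))
      refine ⟨u, v, hu, ?_, huv⟩
      by_contra hvH
      exact hv (Reach.tail hu (by simpa using hvH) huv)
    obtain ⟨u, v, hu, hv, d, rfl, rfl⟩ := hex
    have huH : T.lf d ∉ H := by
      have := Reach.notMem hu (by simpa using hx)
      simpa using this
    obtain ⟨k, hk, hkd⟩ := (bd h (T.al d)).1 ⟨hv, by rw [T.rt_al]; exact huH⟩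
    have h1 := reach_rt h k (ℓ - k)
    rw [hkd, T.rt_al] at h1
    have : k + (ℓ - k) = ℓ := by omega
    rw [this, per h] at h1
    exact Reach.trans hu h1
  intro x hx y hy
  rw [compl_compl]
  exact Reach.trans (key x hx) (Reach.symm (key y hy) (by simpa using hy))

theorem pv_iterate (j : ℕ) (hj : j ≤ ℓ) : (T.pv c)^[j] s = (T.nx c)^[ℓ - j] s := by
  induction j with
  | zero => simp [per h]
  | succ j ih =>
    rw [Function.iterate_succ_apply', ih (by omega)]
    have : ℓ - j = (ℓ - (j + 1)) + 1 := by omega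
    rw [this, Function.iterate_succ_apply', ((st h).iterate_nx _).pv_nx]

theorem mir : T.mirror.IsLoop c s ℓ H := by
  refine ⟨pos h, h.2.1, ?_, ?_, ?_⟩
  · rw [TMap.mirror_nx, pv_iterate h ℓ le_rfl]
    simp
  · intro i j hij hj
    rw [TMap.mirror_nx, pv_iterate h i (by omega), pv_iterate h j hj.le]
    exact (ne h (i := ℓ - j) (j := ℓ - i) (by omega) (by omega)).symm
  · intro d
    rw [TMap.mirror_nx, TMap.mirror_lf, TMap.mirror_rt, bd h]
    constructor
    · rintro ⟨k, hk, rfl⟩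
      rcases Nat.eq_zero_or_pos k with h0 | h0
      · exact ⟨0, pos h, by rw [h0]; rfl⟩
      · refine ⟨ℓ - k, by omega, ?_⟩
        rw [pv_iterate h _ (by omega)]
        congr 1
        omega
    · rintro ⟨k, hk, rfl⟩
      rcases Nat.eq_zero_or_pos k with h0 | h0
      · exact ⟨0, pos h, by rw [h0]; rfl⟩
      · refine ⟨ℓ - k, by omega, ?_⟩
        rw [pv_iterate h _ (by omega)]

theorem bd_eq_image [DecidableEq D] :
    T.bd H = (Finset.range ℓ).image (fun k => (T.nx c)^[k] s) := by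
  classical
  ext d
  simp only [TMap.bd, Finset.mem_filter, Finset.mem_biUnion, Finset.mem_image, Finset.mem_range,
    T.mem_star]
  rw [← bd h]
  constructor
  · rintro ⟨⟨v, hv, rfl⟩, h2⟩
    exact ⟨hv, h2⟩
  · rintro ⟨h1, h2⟩
    exact ⟨⟨_, h1, rfl⟩, h2⟩

theorem card_bd : (T.bd H).card = ℓ := by
  classical
  rw [bd_eq_image h, Finset.card_image_of_injOn, Finset.card_range]
  intro i hi j hj he
  simp only [Finset.coe_range, Set.mem_Iio] at hi hj
  rcases lt_trichotomy i j with hlt | hlt | hlt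
  · exact absurd he (ne h hlt (by omega))
  · exact hlt
  · exact absurd he.symm (ne h hlt (by omega))

theorem sum_bd (θ : D → ℤ) : ∑ d ∈ T.bd H, θ d = ∑ k ∈ Finset.range ℓ, θ ((T.nx c)^[k] s) := by
  classical
  rw [bd_eq_image h, Finset.sum_image]
  intro i hi j hj he
  simp only [Finset.coe_range, Set.mem_Iio] at hi hj
  rcases lt_trichotomy i j with hlt | hlt | hlt
  · exact absurd he (ne h hlt (by omega))
  · exact hlt
  · exact absurd he.symm (ne h hlt (by omega))

end IsLoop

theorem card_bd_le {Δ : ℕ} (hΔ : T.Deg Δ) (S : Finset V) : (T.bd S).card ≤ Δ * S.card := by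
  classical
  unfold TMap.bd
  refine (Finset.card_filter_le _ _).trans ?_
  refine Finset.card_biUnion_le.trans ?_
  refine (Finset.sum_le_sum (fun v _ => hΔ v)).trans ?_
  simp [Nat.mul_comm]

/-- flux bound -/
theorem flux_le (hfl : FluxSetStmt) {K : ℕ} {θ : D → ℤ} (hθ : T.IsFlow K θ) (S : Finset V) :
    S.card ≤ K * (T.bd S).card := by
  have h1 := hfl D V T K θ S hθ
  have h2 : ∑ d ∈ T.bd S, θ d ≤ ∑ d ∈ T.bd S, (K : ℤ) :=
    Finset.sum_le_sum (fun d _ => (le_abs_self _).trans (hθ.bdd d))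
  rw [Finset.sum_const, nsmul_eq_mul] at h2
  have h3 := h1.trans h2
  have : (S.card : ℤ) ≤ ((K * (T.bd S).card : ℕ) : ℤ) := by push_cast; linarith
  exact_mod_cast this

theorem loop (hfl : FluxSetStmt) : LoopStmt := by
  intro D V T Δ K θ c s ℓ H _ hΔ hθ h
  refine ⟨?_, ?_, IsLoop.conn_in h, IsLoop.conn_out h, IsLoop.mir h⟩
  · have h1 := flux_le hfl hθ H
    rw [IsLoop.card_bd h] at h1
    exact h1
  · have h1 := card_bd_le hΔ H
    rw [IsLoop.card_bd h] at h1
    exact h1

end Pool.Agent.BS.H9
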