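import Pool.Agent.Helper9_BS.Cross

/-! # BS squad: bays of a finite loop (for DRIFT, CHANGE, FOLD) -/

set_option autoImplicit false

namespace Pool.Agent.BS.H9

open Function Pool.Agent.BS

variable {D V : Type} {T : TMap D V}

/-! ### infinite components of the complement of a finite set -/

/-- the union of the infinite components of the complement of `Z` -/
def big (T : TMap D V) (Z : Set V) : Set V := {x | x ∉ Z ∧ ¬ (comp T Z x).Finite}

theorem mem_comp_self (Z : Set V) (x : V) : x ∈ comp T Z x := Reach.refl _ _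

theorem comp_closed {Z : Set V} {x u v : V} (hu : u ∈ comp T Z x) (hv : v ∉ Z) (huv : T.Adj u v) :
    v ∈ comp T Z x := Reach.tail hu hv huv

theorem big_closed {Z : Set V} {u v : V} (hu : u ∈ big T Z) (hv : v ∉ Z) (huv : T.Adj u v) :
    v ∈ big T Z := by
  refine ⟨hv, ?_⟩
  rw [← comp_eq (Reach.tail (Reach.refl _ _) hv huv) hu.1]
  exact hu.2

theorem big_reach {Z : Set V} {u v : V} (hu : u ∈ big T Z) (h : T.Reach Z u v) : v ∈ big T Z := by
  refine ⟨Reach.notMem h hu.1, ?_⟩
  rw [← comp_eq h hu.1]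
  exact hu.2

theorem reach_avoid {Z Z' : Set V} {x z : V} (h : T.Reach Z x z)
    (h' : ∀ w, T.Reach Z x w → w ∉ Z') : T.Reach Z' x z := by
  induction h with
  | refl => exact Reach.refl _ _
  | @tail u v h1 h2 ih => exact Reach.tail ih (h' _ (Reach.tail h1 h2.1 h2.2)) h2.2

theorem comp_fin_or (hoe : OEStmt) (hT : T.Planar) {Z : Set V} (hZ : Z.Finite) (x : V) :
    (comp T Z x).Finite ∨ (comp T Z x)ᶜ.Finite := by
  apply hoe D V T hT
  refine (finite_stars_rt (T := T) hZ).subset ?_
  rintro d ⟨h1, h2⟩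
  by_contra h3
  exact h2 (comp_closed h1 h3 (T.adj_lf_rt d))

theorem big_nonempty [Infinite V] {Z : Set V} (hZ : Z.Finite) : (big T Z).Nonempty := by
  by_contra hne
  rw [Set.not_nonempty_iff_eq_empty] at hne
  have hall : ∀ x ∉ Z, (comp T Z x).Finite := by
    intro x hx
    by_contra hc
    have : x ∈ big T Z := ⟨hx, hc⟩
    rw [hne] at this
    exact this
  rcases Z.eq_empty_or_nonempty with h0 | ⟨z, hz⟩
  · subst h0
    obtain ⟨x⟩ : Nonempty V := inferInstance
    have h1 := hall x (by simp)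
    have h2 : comp T ∅ x = Set.univ := by
      ext y
      simp only [Set.mem_univ, iff_true]
      exact reach_empty x y
    rw [h2] at h1
    exact Set.infinite_univ h1
  · have hfin : {d | T.rt d ∈ Z ∧ T.lf d ∉ Z}.Finite :=
      (finite_stars_rt (T := T) hZ).subset (fun d hd => hd.1)
    have hsub : (Set.univ : Set V) ⊆ Z ∪ ⋃ d ∈ {d | T.rt d ∈ Z ∧ T.lf d ∉ Z}, comp T Z (T.lf d) := by
      intro x _
      by_cases hx : x ∈ Z
      · exact Or.inl hx
      · right
        obtain ⟨u, v, _, hu, hv, _, ⟨d, rfl, rfl⟩, _⟩ := Reach.exit (T := T) (Z := ∅)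
          (S := comp T Z x) (reach_empty x z) (Reach.refl _ _) (fun h1 => Reach.notMem h1 hx hz)
        have hdZ : T.rt d ∈ Z := by
          by_contra h3
          exact hv (comp_closed hu h3 (T.adj_lf_rt d))
        have hlZ : T.lf d ∉ Z := Reach.notMem hu hx
        simp only [Set.mem_iUnion]
        exact ⟨d, ⟨hdZ, hlZ⟩, Reach.symm hu hx⟩
    have : (Set.univ : Set V).Finite :=
      (hZ.union (hfin.biUnion (fun d hd => hall _ hd.2))).subset hsub
    exact Set.infinite_univ this

theorem big_conn (hoe : OEStmt) (hT : T.Planar) [Infinite V] {Z : Set V} (hZ : Z.Finite) {x y : V}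
    (hx : x ∈ big T Z) (hy : y ∈ big T Z) : T.Reach Z x y := by
  have h1 : (comp T Z x)ᶜ.Finite := (comp_fin_or hoe hT hZ x).resolve_left hx.2
  have h2 : (comp T Z y)ᶜ.Finite := (comp_fin_or hoe hT hZ y).resolve_left hy.2
  have h3 : ((comp T Z x)ᶜ ∪ (comp T Z y)ᶜ) ≠ Set.univ := by
    intro h
    exact Set.infinite_univ (h ▸ h1.union h2)
  rw [Set.ne_univ_iff_exists_notMem] at h3
  obtain ⟨z, hz⟩ := h3
  simp only [Set.mem_union, Set.mem_compl_iff, not_or, not_not] at hz
  exact Reach.trans hz.1 (Reach.symm hz.2 hy.1)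

theorem big_cofinite (hoe : OEStmt) (hT : T.Planar) [Infinite V] {Z : Set V} (hZ : Z.Finite) :
    (big T Z)ᶜ.Finite := by
  obtain ⟨x, hx⟩ := big_nonempty (T := T) hZ
  have h1 : (comp T Z x)ᶜ.Finite := (comp_fin_or hoe hT hZ x).resolve_left hx.2
  refine h1.subset ?_
  intro y hy hyx
  exact hy (big_reach hx hyx)

/-! ### bays -/

/-- the standing assumptions -/
structure BayCtx (T : TMap D V) (H : Finset V) : Prop where
  oe : OEStmt
  planar : T.Planar
  inf : Infinite V
  conn : T.Conn (H : Set V)ᶜ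

namespace BayCtx

variable {H : Finset V} (hc : BayCtx T H)

include hc

omit hc in
theorem finZ (y : V) : (insert y (H : Set V)).Finite := H.finite_toSet.insert y

omit hc in
theorem mem_bay {x y : V} : x ∈ T.bay (H : Set V) y ↔
    x ∉ H ∧ x ≠ y ∧ (comp T (insert y (H : Set V)) x).Finite := Iff.rfl

omit hc in
theorem notMem_Z {x y : V} : x ∉ insert y (H : Set V) ↔ x ≠ y ∧ x ∉ H := by
  simp [not_or]

omit hc in
theorem bay_or_big {x y : V} (hx : x ∉ H) (hxy : x ≠ y) :
    x ∈ T.bay (H : Set V) y ∨ x ∈ big T (insert y (H : Set V)) := by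
  by_cases hf : (comp T (insert y (H : Set V)) x).Finite
  · exact Or.inl ⟨hx, hxy, hf⟩
  · exact Or.inr ⟨notMem_Z.2 ⟨hxy, hx⟩, hf⟩

omit hc in
theorem notMem_big_of_bay {x y : V} (hx : x ∈ T.bay (H : Set V) y) :
    x ∉ big T (insert y (H : Set V)) := fun h => h.2 hx.2.2

omit hc in
/-- a bay is closed under adjacency in the complement -/
theorem bay_closed {x y v : V} (hx : x ∈ T.bay (H : Set V) y) (hv : v ∉ H) (hvy : v ≠ y)
    (h : T.Adj x v) : v ∈ T.bay (H : Set V) y := by
  refine ⟨hv, hvy, ?_⟩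
  have hx1 : x ∉ insert y (H : Set V) := notMem_Z.2 ⟨hx.2.1, hx.1⟩
  change (comp T (insert y (H : Set V)) v).Finite
  rw [← comp_eq (Reach.tail (Reach.refl _ _) (notMem_Z.2 ⟨hvy, hv⟩) h) hx1]
  exact hx.2.2

theorem bay_finite (y : V) : (T.bay (H : Set V) y).Finite := by
  have := hc.inf
  exact (big_cofinite hc.oe hc.planar (finZ y)).subset (fun x hx => notMem_big_of_bay hx)

/-- (i) `y` is adjacent to the infinite component -/
theorem adj_big {y : V} (hy : y ∉ H) : ∃ u ∈ big T (insert y (H : Set V)), T.Adj u y := by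
  have := hc.inf
  obtain ⟨u, hu⟩ := big_nonempty (T := T) (finZ y)
  have hu' := notMem_Z.1 hu.1
  have hr : T.Reach (H : Set V) u y := by
    have := hc.conn u (by simpa using hu'.2) y (by simpa using hy)
    rwa [compl_compl] at this
  obtain ⟨a, b, _, ha, hb, hbH, hab, _⟩ := Reach.exit hr hu (fun h => h.1 (Set.mem_insert _ _))
  by_cases hby : b = y
  · subst hby
    exact ⟨a, ha, hab⟩
  · exact absurd (big_closed ha (notMem_Z.2 ⟨hby, by simpa using hbH⟩) hab) hb

/-- (ii) -/
theorem bay_sub {y y' : V} (hy : y ∉ H) (hy' : y' ∉ H) (h : y ∈ T.bay (H : Set V) y') :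
    T.bay (H : Set V) y ⊆ T.bay (H : Set V) y' := by
  have hUU : big T (insert y' (H : Set V)) ⊆ big T (insert y (H : Set V)) := by
    intro z hz
    have hz1 := notMem_Z.1 hz.1
    have hzy : ∀ w, T.Reach (insert y' (H : Set V)) z w → w ∉ insert y (H : Set V) := by
      intro w hw
      have hwb := big_reach hz hw
      refine notMem_Z.2 ⟨?_, (notMem_Z.1 hwb.1).2⟩
      rintro rfl
      exact notMem_big_of_bay h hwb
    refine ⟨hzy z (Reach.refl _ _), ?_⟩
    intro hfin
    exact hz.2 (hfin.subset (fun w hw => reach_avoid hw hzy))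
  have hy'U : y' ∈ big T (insert y (H : Set V)) := by
    obtain ⟨u, hu, huy⟩ := adj_big hc hy'
    exact big_closed (hUU hu) (notMem_Z.2 ⟨fun e => h.2.1 e.symm, hy'⟩) huy
  intro x hx
  have hxy' : x ≠ y' := by
    rintro rfl
    exact notMem_big_of_bay hx hy'U
  rcases bay_or_big (T := T) hx.1 hxy' with h1 | h1
  · exact h1
  · exact absurd (hUU h1) (notMem_big_of_bay hx)

/-- (iii) -/
theorem bay_disj {y y' : V} (hy : y ∉ H) (hy' : y' ∉ H) (hne : y ≠ y')
    (h1 : y ∉ T.bay (H : Set V) y') (h2 : y' ∉ T.bay (H : Set V) y) :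
    Disjoint (insert y (T.bay (H : Set V) y)) (insert y' (T.bay (H : Set V) y')) := by
  rw [Set.disjoint_left]
  intro x hx hx'
  rcases hx with rfl | hx
  · rcases hx' with h | h
    · exact hne h
    · exact h1 h
  rcases hx' with rfl | hx'
  · exact h2 hx
  -- `x` in both bays
  have hy'U : y' ∈ big T (insert y (H : Set V)) :=
    (bay_or_big (T := T) hy' hne.symm).resolve_left h2
  have hyU : y ∈ big T (insert y' (H : Set V)) := (bay_or_big (T := T) hy hne).resolve_left h1
  have hxZ : x ∉ insert y (H : Set V) := notMem_Z.2 ⟨hx.2.1, hx.1⟩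
  have hxZ' : x ∉ insert y' (H : Set V) := notMem_Z.2 ⟨hx'.2.1, hx'.1⟩
  have hav : ∀ w, T.Reach (insert y (H : Set V)) x w → w ∉ insert y' (H : Set V) := by
    intro w hw
    refine notMem_Z.2 ⟨?_, (notMem_Z.1 (Reach.notMem hw hxZ)).2⟩
    rintro rfl
    exact notMem_big_of_bay hx (big_reach hy'U (Reach.symm hw hxZ))
  have hyB : y ∈ comp T (insert y (H : Set V)) x := by
    have hr : T.Reach (H : Set V) x y := by
      have := hc.conn x (by simpa using hx.1) y (by simpa using hy)
      rwa [compl_compl] at this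
    refine Reach.into hr (mem_comp_self _ _) ?_
    intro u v hu hv huv
    by_cases hvy : v = y
    · exfalso
      subst hvy
      have h3 : T.Reach (insert y' (H : Set V)) x u := reach_avoid hu hav
      have h4 : T.Reach (insert y' (H : Set V)) x v := Reach.tail h3 (notMem_Z.2 ⟨hne, hy⟩) huv
      exact notMem_big_of_bay hx' (big_reach hyU (Reach.symm h4 hxZ'))
    · exact comp_closed hu (notMem_Z.2 ⟨hvy, by simpa using hv⟩) huv
  exact (Reach.notMem hyB hxZ) (Set.mem_insert _ _)

/-- (v) a nonempty bay contains a vertex adjacent to `H` -/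
theorem bay_adj {y : V} (hne : (T.bay (H : Set V) y).Nonempty) :
    ∃ d, T.lf d ∈ H ∧ T.rt d ∈ T.bay (H : Set V) y := by
  have := hc.inf
  by_contra hno
  push Not at hno
  obtain ⟨x, hx⟩ := hne
  have hxZ : x ∉ insert y (H : Set V) := notMem_Z.2 ⟨hx.2.1, hx.1⟩
  set B := comp T (insert y (H : Set V)) x with hB
  have hBfin : B.Finite := hx.2.2
  have hBbay : ∀ z ∈ B, z ∈ T.bay (H : Set V) y := by
    intro z hz
    have hz1 := notMem_Z.1 (Reach.notMem hz hxZ)
    refine ⟨hz1.2, hz1.1, ?_⟩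
    change (comp T (insert y (H : Set V)) z).Finite
    rw [← comp_eq hz hxZ]
    exact hBfin
  have hnb : ∀ u ∈ B, ∀ v, T.Adj u v → v = y ∨ v ∈ B := by
    rintro u hu v ⟨d, rfl, rfl⟩
    by_cases hvy : T.rt d = y
    · exact Or.inl hvy
    · right
      have hvH : T.rt d ∉ H := by
        intro hvH
        exact hno (T.al d) hvH (by rw [T.rt_al]; exact hBbay _ hu)
      exact comp_closed hu (notMem_Z.2 ⟨hvy, hvH⟩) (T.adj_lf_rt d)
  have hBne : B ≠ Set.univ := by
    intro h
    exact Set.infinite_univ (h ▸ hBfin)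
  -- some dart at `y` points into `B`
  have hex : ∃ d, T.lf d = y ∧ T.rt d ∈ B := by
    by_contra hno2
    push Not at hno2
    apply hBne
    apply eq_univ_of_adj (T := T) ⟨x, mem_comp_self _ _⟩
    rintro u v hu ⟨d, rfl, rfl⟩
    rcases hnb _ hu _ (T.adj_lf_rt d) with h | h
    · exact absurd (by rw [T.rt_al]; exact hu) (hno2 (T.al d) h)
    · exact h
  obtain ⟨d0, hd0, hd0B⟩ := hex
  have hrot : ∀ n : ℕ, T.rt ((T.lam ^ n) d0) ∈ B := by
    intro n
    induction n with
    | zero => exact hd0B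
    | succ n ih =>
      rw [pow_succ', Equiv.Perm.mul_apply, T.rt_lam]
      rcases hnb _ ih _ (T.adj_tau_rt _).symm with h | h
      · exfalso
        have h2 := T.adj_lf_tau ((T.lam ^ n) d0)
        rw [lf_lam_pow, hd0, h] at h2
        obtain ⟨e, he1, he2⟩ := h2
        exact TMap.lf_ne_rt e (he1.trans he2.symm)
      · exact h
  have hall : insert y B = Set.univ := by
    apply eq_univ_of_adj (T := T) ⟨y, Set.mem_insert _ _⟩
    rintro u v hu ⟨d, rfl, rfl⟩
    rcases hu with hu | hu
    · right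
      obtain ⟨n, hn⟩ := T.cyc d0 d (hd0.trans hu.symm)
      rw [← hn]
      exact hrot n
    · rcases hnb _ hu _ (T.adj_lf_rt d) with h | h
      · rw [h]; exact Set.mem_insert _ _
      · exact Or.inr h
  exact Set.infinite_univ (hall ▸ hBfin.insert y)

/-! ### maximal bays -/

omit hc in
/-- the set of maximal `y` -/
def Ys (T : TMap D V) (H : Finset V) (m : ℕ) : Set V :=
  {y | y ∉ H ∧ m ≤ (T.bay (H : Set V) y).ncard ∧
    ∀ y', y' ∉ H → m ≤ (T.bay (H : Set V) y').ncard → y ∉ T.bay (H : Set V) y'}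

theorem Ys_disj {m : ℕ} {y y' : V} (hy : y ∈ Ys T H m) (hy' : y' ∈ Ys T H m) (hne : y ≠ y') :
    Disjoint (insert y (T.bay (H : Set V) y)) (insert y' (T.bay (H : Set V) y')) :=
  bay_disj hc hy.1 hy'.1 hne (hy.2.2 y' hy'.1 hy'.2.1) (hy'.2.2 y hy.1 hy.2.1)

theorem Ys_finite {m : ℕ} (hm : 1 ≤ m) : (Ys T H m).Finite := by
  have hex : ∀ y : Ys T H m, ∃ d, T.lf d ∈ H ∧ T.rt d ∈ T.bay (H : Set V) y.1 := by
    intro y
    apply bay_adj hc
    have h1 : 0 < (T.bay (H : Set V) y.1).ncard := by
      have := y.2.2.1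
      omega
    rw [Set.ncard_pos (bay_finite hc y.1)] at h1
    exact h1
  choose f hf1 hf2 using hex
  have hinj : Injective f := by
    intro y y' he
    by_contra hne
    have hne' : y.1 ≠ y'.1 := fun h => hne (Subtype.ext h)
    have h1 := Ys_disj hc y.2 y'.2 hne'
    rw [Set.disjoint_left] at h1
    exact h1 (Or.inr (hf2 y)) (Or.inr (he ▸ hf2 y'))
  have hfin : {d | T.lf d ∈ (H : Set V)}.Finite := finite_stars H.finite_toSet
  have : Finite (Ys T H m) := by
    have := hfin.to_subtype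
    exact Finite.of_injective (fun y : Ys T H m => (⟨f y, hf1 y⟩ : {d | T.lf d ∈ (H : Set V)}))
      (fun y y' he => hinj (congrArg Subtype.val he))
  exact Set.toFinite _

/-- existence of maximal elements, given a bound on the sizes of the bays -/
theorem exists_max {m N : ℕ} (hN : ∀ y ∉ H, (T.bay (H : Set V) y).ncard ≤ N) {x y : V} (hy : y ∉ H)
    (hm : m ≤ (T.bay (H : Set V) y).ncard) (hx : x = y ∨ x ∈ T.bay (H : Set V) y) :
    ∃ y' ∈ Ys T H m, x = y' ∨ x ∈ T.bay (H : Set V) y' := by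
  -- strong induction on `N - ncard`
  induction hk : N - (T.bay (H : Set V) y).ncard using Nat.strong_induction_on generalizing y with
  | _ k ih =>
    by_cases hmax : y ∈ Ys T H m
    · exact ⟨y, hmax, hx⟩
    · have hex : ∃ y', y' ∉ H ∧ m ≤ (T.bay (H : Set V) y').ncard ∧ y ∈ T.bay (H : Set V) y' := by
        by_contra hno
        push Not at hno
        exact hmax ⟨hy, hm, fun y' h1 h2 => hno y' h1 h2⟩
      obtain ⟨y', hy', hm', hyy'⟩ := hex
      have hsub := bay_sub hc hy hy' hyy'
      have hlt : (T.bay (H : Set V) y).ncard < (T.bay (H : Set V) y').ncard := by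
        apply Set.ncard_lt_ncard _ (bay_finite hc y')
        refine ⟨hsub, fun h => ?_⟩
        have := h hyy'
        exact this.2.1 rfl
      have hxx : x = y' ∨ x ∈ T.bay (H : Set V) y' := by
        right
        rcases hx with rfl | hx
        · exact hyy'
        · exact hsub hx
      have h3 := hN y' hy'
      exact ih (N - (T.bay (H : Set V) y').ncard) (by omega) hy' hm' hxx rfl

end BayCtx

end Pool.Agent.BS.H9
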