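import Pool.Agent.Helper47_BS.Stmts
import Pool.Agent.Helper9_BS.Tools

/-! # BS squad, module OE: a set of vertices with finite edge boundary is finite or cofinite -/

set_option autoImplicit false

namespace Pool.Agent.BS.H9

open Function Pool.Agent.BS

theorem oe : OEStmt := by
  classical
  intro D V T hT S hfin
  -- coloring
  let c : V → Bool := fun v => decide (v ∈ S)
  have hc1 : ∀ v, c v = true ↔ v ∈ S := by intro v; simp [c]
  have hc0 : ∀ v, c v = false ↔ v ∉ S := by intro v; simp [c]
  have hst : ∀ d, T.State c d ↔ d ∈ {d | T.lf d ∈ S ∧ T.rt d ∉ S} := by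
    intro d
    simp only [TMap.State, hc1, hc0, Set.mem_ofPred_eq]
  let B := {d // T.State c d}
  have : Finite B := by
    have : {d | T.State c d}.Finite := by
      refine hfin.subset ?_
      intro d hd
      exact (hst d).1 hd
    exact this.to_subtype
  have : Fintype B := Fintype.ofFinite B
  let σ : Equiv.Perm B :=
    { toFun := fun d => ⟨T.nx c d.1, d.2.nx⟩
      invFun := fun d => ⟨T.pv c d.1, d.2.pv⟩
      left_inv := fun d => Subtype.ext d.2.pv_nx
      right_inv := fun d => Subtype.ext d.2.nx_pv }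
  have hσ : ∀ (n : ℕ) (d : B), ((σ ^ n) d).1 = (T.nx c)^[n] d.1 := by
    intro n d
    induction n with
    | zero => rfl
    | succ n ih =>
      rw [pow_succ', Equiv.Perm.mul_apply, Function.iterate_succ_apply', ← ih]
      rfl
  set M := orderOf σ with hM
  have hMpos : 0 < M := orderOf_pos σ
  have hMid : ∀ d : B, (T.nx c)^[M] d.1 = d.1 := by
    intro d
    rw [← hσ, hM, pow_orderOf_eq_one]
    rfl
  -- potentials
  have hpot : ∀ d : B, ∃ χ : V → ℤ, (support χ).Finite ∧
      ∀ e, T.cnt (fun k => (T.nx c)^[k] d.1) M e = χ (T.lf e) - χ (T.rt e) := by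
    intro d
    apply hT
    · intro k _
      simp only [Function.iterate_succ_apply']
      exact nx_turn c _
    · exact hMid d
  choose χ hχ1 hχ2 using hpot
  let ψ : V → ℤ := fun v => ∑ d : B, χ d v
  have hψfin : (support ψ).Finite := by
    refine (Set.finite_iUnion (fun d : B => hχ1 d)).subset ?_
    intro v hv
    by_contra hc
    apply hv
    apply Finset.sum_eq_zero
    intro d _
    by_contra hd
    exact hc (Set.mem_iUnion.2 ⟨d, hd⟩)
  have hcount : ∀ (k : ℕ) (e : D), (∑ d : B, if (T.nx c)^[k] d.1 = e then (1 : ℤ) else 0)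
      = if T.State c e then 1 else 0 := by
    intro k e
    split_ifs with he
    · have : ∀ d : B, ((T.nx c)^[k] d.1 = e) ↔ d = (σ ^ k).symm ⟨e, he⟩ := by
        intro d
        rw [← hσ, Equiv.eq_symm_apply]
        exact (Subtype.ext_iff (a1 := (σ ^ k) d) (a2 := ⟨e, he⟩)).symm
      rw [Finset.sum_congr rfl (fun d _ => by rw [if_congr (this d) rfl rfl])]
      rw [Finset.sum_ite_eq' Finset.univ ((σ ^ k).symm ⟨e, he⟩) (fun _ => (1 : ℤ))]
      simp
    · apply Finset.sum_eq_zero
      intro d _
      rw [if_neg]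
      intro h
      apply he
      rw [← h]
      exact d.2.iterate_nx k
  have hψ : ∀ e, ψ (T.lf e) - ψ (T.rt e)
      = M * ((if T.State c e then 1 else 0) - (if T.State c (T.al e) then 1 else 0)) := by
    intro e
    have h1 : ψ (T.lf e) - ψ (T.rt e) = ∑ d : B, (χ d (T.lf e) - χ d (T.rt e)) := by
      simp only [ψ, Finset.sum_sub_distrib]
    rw [h1]
    have h2 : ∀ d : B, χ d (T.lf e) - χ d (T.rt e)
        = ∑ k ∈ Finset.range M, ((if (T.nx c)^[k] d.1 = e then (1 : ℤ) else 0)
          - (if (T.nx c)^[k] d.1 = T.al e then 1 else 0)) := by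
      intro d
      rw [← hχ2]
      unfold TMap.cnt
      apply Finset.sum_congr rfl
      intro k _
      congr 1
    simp only [h2]
    rw [Finset.sum_comm]
    simp only [Finset.sum_sub_distrib, hcount]
    simp only [Finset.sum_const, Finset.card_range, nsmul_eq_mul]
    ring
  -- difference is constant
  have hind : ∀ e, ((if T.State c e then (1 : ℤ) else 0) - (if T.State c (T.al e) then 1 else 0))
      = (if T.lf e ∈ S then 1 else 0) - (if T.rt e ∈ S then 1 else 0) := by
    intro e
    have e1 : T.State c e ↔ T.lf e ∈ S ∧ T.rt e ∉ S := by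
      simp only [TMap.State, hc1, hc0]
    have e2 : T.State c (T.al e) ↔ T.rt e ∈ S ∧ T.lf e ∉ S := by
      simp only [TMap.State, hc1, hc0, TMap.lf_al, TMap.rt_al]
    simp only [e1, e2]
    by_cases h1 : T.lf e ∈ S <;> by_cases h2 : T.rt e ∈ S <;> simp [h1, h2]
  let g : V → ℤ := fun v => ψ v - M * (if v ∈ S then 1 else 0)
  have hg : ∀ e, g (T.lf e) = g (T.rt e) := by
    intro e
    have h1 := hψ e
    rw [hind e] at h1
    simp only [g]
    linarith
  rcases isEmpty_or_nonempty V with hV | ⟨⟨v0⟩⟩
  · left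
    exact Set.toFinite S
  have hconst : ∀ v, g v = g v0 := by
    have : {v | g v = g v0} = Set.univ := by
      refine eq_univ_of_adj (T := T) (S := {v | g v = g v0}) ⟨v0, rfl⟩ ?_
      rintro u v hu ⟨d, rfl, rfl⟩
      simp only [Set.mem_ofPred_eq] at hu ⊢
      rw [← hg, hu]
    intro v
    have hv : v ∈ {v | g v = g v0} := by rw [this]; trivial
    exact hv
  by_contra hcon
  push Not at hcon
  obtain ⟨hS, hSc⟩ := hcon
  -- points where ψ vanishes
  have hex1 : ∃ v ∈ S, ψ v = 0 := by
    by_contra h
    push Not at h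
    exact hS (hψfin.subset (fun v hv => h v hv))
  have hex2 : ∃ v ∈ Sᶜ, ψ v = 0 := by
    by_contra h
    push Not at h
    exact hSc (hψfin.subset (fun v hv => h v hv))
  obtain ⟨v1, hv1, e1⟩ := hex1
  obtain ⟨v2, hv2, e2⟩ := hex2
  have h1 := hconst v1
  have h2 := hconst v2
  simp only [g] at h1 h2
  rw [if_pos hv1, e1] at h1
  rw [if_neg hv2, e2] at h2
  have : (M : ℤ) = 0 := by linarith
  omega

end Pool.Agent.BS.H9
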